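import Pool.Agent.W2helper22.CU.AltChain

/-!
# Circuits with few alternations on every host: the theorem
-/

set_option autoImplicit false

namespace Pool.Agent.W2helper22.CU

open Finset Pool.Agent.H540R2 Pool.Agent.W2helper86.KQ Pool.Agent.H520R2 Pool.Agent.H520R2.NM

section

open Pool.Agent.W2helper39.CU

variable {N M : ℕ}

/-- substitution of variables and constants into a node -/
def nodeS (σ : Fin N → Fin M ⊕ Bool) : Node N → Node M
  | .var i => match σ i with
    | .inl j => .var j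
    | .inr b => .const b
  | .const b => .const b
  | .gate j => .gate j

/-- substitution into a gate -/
def gateS (σ : Fin N → Fin M ⊕ Bool) : Gate N → Gate M
  | .and a b => .and (nodeS σ a) (nodeS σ b)
  | .or a b => .or (nodeS σ a) (nodeS σ b)
  | .not a => .not (nodeS σ a)

lemma nodeS_wires (σ : Fin N → Fin M ⊕ Bool) (a : Node N) (j : ℕ) :
    (nodeS σ a).wires j = a.wires j := by
  cases a with
  | var i => cases h : σ i <;> simp [nodeS, h, Node.wires]
  | const b => rfl
  | gate i => rfl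

lemma gateS_wires (σ : Fin N → Fin M ⊕ Bool) (a : Gate N) (j : ℕ) :
    (gateS σ a).wires j = a.wires j := by
  cases a <;> simp [gateS, Gate.wires, nodeS_wires]

/-- substitution into a circuit -/
def circS (σ : Fin N → Fin M ⊕ Bool) (C : H540R2.Circuit N) : H540R2.Circuit M where
  size := C.size
  gate i := gateS σ (C.gate i)
  out := nodeS σ C.out
  gate_lt i hi j hj := C.gate_lt i hi j (by rwa [gateS_wires] at hj)
  out_lt j hj := C.out_lt j (by rwa [nodeS_wires] at hj)

lemma nodeS_eval (σ : Fin N → Fin M ⊕ Bool) (a : Node N) (x : Fin M → Bool) (v : ℕ → Bool) :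
    (nodeS σ a).eval x v = a.eval (sub σ x) v := by
  cases a with
  | var i => cases h : σ i <;> simp [nodeS, h, Node.eval, sub]
  | const b => rfl
  | gate i => rfl

lemma circS_val (σ : Fin N → Fin M ⊕ Bool) (C : H540R2.Circuit N) (x : Fin M → Bool) :
    ∀ i, (circS σ C).val x i = C.val (sub σ x) i := by
  intro i
  induction i using Nat.strong_induction_on with
  | _ i ih =>
    rw [H540R2.Circuit.val, H540R2.Circuit.val]
    have e : (fun j => if _h : j < i then (circS σ C).val x j else false) =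
        (fun j => if _h : j < i then C.val (sub σ x) j else false) := by
      funext j
      by_cases h : j < i
      · simp only [h, dite_true]; exact ih j h
      · simp only [h, dite_false]
    rw [e]
    show (gateS σ (C.gate i)).eval x _ = _
    cases C.gate i <;> simp [gateS, Gate.eval, nodeS_eval]

lemma circS_eval (σ : Fin N → Fin M ⊕ Bool) (C : H540R2.Circuit N) (x : Fin M → Bool) :
    (circS σ C).eval x = C.eval (sub σ x) := by
  unfold H540R2.Circuit.eval
  rw [show (circS σ C).val x = C.val (sub σ x) from funext (circS_val σ C x)]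
  exact nodeS_eval σ C.out x _

lemma circS_alternates (σ : Fin N → Fin M ⊕ Bool) (C : H540R2.Circuit N) {D : ℕ}
    (hD : Alternates C D) : Alternates (circS σ C) D := by
  intro x hx J hJ
  refine hD (fun i => sub σ (x i)) ?_ J ?_
  · intro i p hp
    have hp' : sub σ (x i) p = true := hp
    show sub σ (x (i + 1)) p = true
    unfold sub at hp' ⊢
    cases h : σ p with
    | inl q => rw [h] at hp'; exact hx i q hp'
    | inr b => rw [h] at hp'; exact hp'
  · intro i hi
    obtain ⟨g, ⟨hg, a, ha⟩, hne⟩ := hJ i hi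
    refine ⟨g, ⟨hg, ?_⟩, ?_⟩
    · have ha' : gateS σ (C.gate g) = Gate.not a := ha
      cases hC : C.gate g with
      | not b => exact ⟨b, rfl⟩
      | and b c => rw [hC] at ha'; exact absurd ha' (by simp [gateS])
      | or b c => rw [hC] at ha'; exact absurd ha' (by simp [gateS])
    · rw [circS_val, circS_val] at hne
      exact hne

theorem link' (n k : ℕ) (H : SimpleGraph (Fin n)) (Z : Finset (Fin n))
    (C : H540R2.Circuit (n.choose 2)) {D : ℕ} (hD : Alternates C D) (hk : Z.card + 2 ≤ k)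
    (hZ : H.IsClique (Z : Set (Fin n))) (hC : Separates H k C) :
    ∃ (H' : SimpleGraph (Fin n)) (C' : H540R2.Circuit (n.choose 2)),
      Separates H' (k - Z.card) C' ∧ C'.size ≤ C.size ∧ Alternates C' D ∧
      (∀ Y, Disjoint Y Z → dg H' (k - Z.card) Y = dg H k (Z ∪ Y)) ∧
      (∀ Y, ¬ Disjoint Y Z → dg H' (k - Z.card) Y = 0) := by
  classical
  refine ⟨lk H Z, circS (sg H Z) C, ?_, le_rfl, circS_alternates _ C hD,
    fun Y hY => dg_link hk hZ Y hY, fun Y hY => dg_link_zero hk hZ Y hY⟩
  set C' := circS (sg H Z) C with hC'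
  have h3' : ∀ x, C'.eval x = true ↔ C.eval (sub (sg H Z) x) = true := fun x => by
    rw [hC', circS_eval]
  intro x hx
  have hle := graph_sub_le H Z hZ x hx
  refine ⟨fun hcl => ?_, fun hcol => ?_⟩
  · rw [h3']
    refine (hC _ hle).1 ?_
    unfold SimpleGraph.CliqueFree at hcl ⊢
    push Not at hcl ⊢
    obtain ⟨S, hS⟩ := hcl
    have hS' : (lk H Z).IsNClique (k - Z.card) S := hS.mono hx
    have hnb : ∀ u ∈ S, Nb H Z u := fun u hu => nb_of_clique (by omega) hS' hu
    have hd : Disjoint S Z := (clique_union hk hZ hS').1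
    refine ⟨S ∪ Z, ⟨?_, (clique_union hk hZ hS').2.card_eq⟩⟩
    intro u hu v hv hne
    rw [graph_sub H Z x hx]
    refine ⟨hne, ?_⟩
    rw [mem_coe, mem_union] at hu hv
    rcases hu with hu | hu <;> rcases hv with hv | hv
    · exact Or.inr (hS.isClique (mem_coe.2 hu) (mem_coe.2 hv) hne)
    · exact Or.inl (Or.inr (Or.inr ⟨hv, hnb u hu⟩))
    · exact Or.inl (Or.inr (Or.inl ⟨hu, hnb v hv⟩))
    · exact Or.inl (Or.inl ⟨hu, hv⟩)
  · have hcol2 : (graph (sub (sg H Z) x)).Colorable (k - 1) := by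
      obtain ⟨c⟩ := hcol
      have hcard : Fintype.card (Fin (k - Z.card - 1) ⊕ Z) = k - 1 := by
        rw [Fintype.card_sum, Fintype.card_fin, Fintype.card_coe]
        omega
      rw [← hcard]
      refine (SimpleGraph.Coloring.mk
        (fun v => if h : v ∈ Z then (Sum.inr ⟨v, h⟩ : Fin (k - Z.card - 1) ⊕ Z)
          else Sum.inl (c v)) ?_).colorable
      intro u v h
      rw [graph_sub H Z x hx] at h
      obtain ⟨hne, h⟩ := h
      by_cases hu : u ∈ Z
      · by_cases hv : v ∈ Z
        · simp only [hu, hv, dite_true]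
          intro h4
          exact hne (Subtype.ext_iff.1 (Sum.inr_injective h4))
        · simp only [hu, hv, dite_true, dite_false]
          exact Sum.inr_ne_inl
      · by_cases hv : v ∈ Z
        · simp only [hu, hv, dite_true, dite_false]
          exact Sum.inl_ne_inr
        · simp only [hu, hv, dite_false]
          have h5 : (graph x).Adj u v := by
            rcases h with h | h
            · rcases h with h | h | h
              · exact absurd h.1 hu
              · exact absurd h.1 hu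
              · exact absurd h.1 hv
            · exact h
          intro h6
          exact c.valid h5 (Sum.inl_injective h6)
    have h4 := (hC _ hle).2 hcol2
    rcases h5 : C'.eval x with _ | _
    · rfl
    · rw [h3'] at h5
      rw [h4] at h5
      exact absurd h5 Bool.false_ne_true

end

theorem spreadN' (hP : P_PART) (hB : P_BLOCK) (n k p P R : ℕ) (H : SimpleGraph (Fin n))
    (C : H540R2.Circuit (n.choose 2)) {D : ℕ} (hD : Alternates C D) (hk : 2 ≤ k) (hp : 2 ≤ p)
    (hP1 : 1 ≤ P) (hR1 : 1 ≤ R) (hC : Separates H k C) (hcl : 1 ≤ cliques H k)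
    (hsp : ∀ Y : Finset (Fin n), dg H k Y * R ^ Y.card ≤ cliques H k)
    (h16 : 16 * ((1 + (P : ℝ) / R) ^ k - 1) ≤ 1) (hnots : 4 * ((D : ℝ) + 1) ≤ qq (k - 1) * P)
    (hnum : (1 - qq (k - 1)) ^ p * (2 ^ k * cliques H k * (3 * cliques H k + 1)) <
      qq (k - 1) / 2) :
    cliques H k ≤ 2 * P ^ k * ((3 * C.size + 1) * (p ^ (k - 1) * (k - 1).factorial) ^ 2) := by
  classical
  have hκ : 1 ≤ k - 1 := by omega
  have hq := W2helper37.CU.qq_pos hκ
  have hq1 := W2helper37.CU.qq_le hκ
  have hne : (cl H k).Nonempty := by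
    rw [← Finset.card_pos, card_cl]
    omega
  obtain ⟨π, hπ⟩ := hP n k P R (cl H k) hP1 hR1 (fun s hs => (mem_cl.1 hs).card_eq) hne
    (fun Y => by
      have := hsp Y
      rw [← card_cl] at this
      exact this)
  set B := W953.KC.build (fun i => (Sum.inl i : Fin (n.choose 2) ⊕ Bool)) C C.size with hBdef
  have hch := chain' n (k - 1) P H C hD π (qq (k - 1) / 2) hκ
  rw [← hBdef] at hch
  -- few bad blocks
  have hPpos : (0 : ℝ) < P := by exact_mod_cast hP1
  set S1 : Finset (Fin P) := univ.filter (fun j : Fin P =>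
    2 * P ^ k * ((cl H k).filter (fun s => ∀ v ∈ s, π v = j)).card < (cl H k).card) with hS1
  set S2 : Set (Fin P) := {j : Fin P | ∀ χ₀ : Fin n → Fin (k - 1),
    qq (k - 1) / 2 * ((k - 1 : ℕ) : ℝ) ^ n < ({χ : Fin n → Fin (k - 1) |
      B.probes (bits (mixR H π j χ₀ χ)) ≠ B.probes (bits (baseR H π j χ₀))}.ncard : ℝ)} with hS2
  have h1 : (S1.card : ℝ) ≤ P / 4 := by
    refine hπ.trans ?_
    nlinarith
  have h2 : (S2.ncard : ℝ) ≤ P / 2 := by
    have h0 : (S2.ncard : ℝ) * (qq (k - 1) / 2) ≤ D := by exact_mod_cast hch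
    nlinarith
  have hex : ∃ j : Fin P, j ∉ S1 ∧ j ∉ S2 := by
    by_contra hcon
    push Not at hcon
    have h3 : (Set.univ : Set (Fin P)) ⊆ (S1 : Set (Fin P)) ∪ S2 := by
      intro j _
      by_cases h : j ∈ S1
      · exact Or.inl (Finset.mem_coe.2 h)
      · exact Or.inr (hcon j h)
    have h4 := (Set.ncard_le_ncard h3 (Set.toFinite _)).trans (Set.ncard_union_le _ _)
    rw [Set.ncard_univ, Nat.card_eq_fintype_card, Fintype.card_fin, Set.ncard_coe_finset] at h4
    have h5 : (P : ℝ) ≤ S1.card + S2.ncard := by exact_mod_cast h4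
    linarith
  obtain ⟨j, hj1, hj2⟩ := hex
  set W := ((cl H k).filter (fun s => ∀ v ∈ s, π v = j)).card with hW
  have hj3 : (cl H k).card ≤ 2 * P ^ k * W := by
    rw [hS1, Finset.mem_filter] at hj1
    push Not at hj1
    exact hj1 (Finset.mem_univ _)
  rw [card_cl] at hj3
  have hj4 : ∃ χ₀ : Fin n → Fin (k - 1), ({χ : Fin n → Fin (k - 1) |
      B.probes (bits (mixR H π j χ₀ χ)) ≠ B.probes (bits (baseR H π j χ₀))}.ncard : ℝ) ≤
      qq (k - 1) / 2 * ((k - 1 : ℕ) : ℝ) ^ n := by
    by_contra hcon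
    push Not at hcon
    exact hj2 hcon
  obtain ⟨χ₀, hχ₀⟩ := hj4
  have hWle : W ≤ cliques H k := by
    rw [← card_cl]
    exact Finset.card_filter_le _ _
  have hW1 : 1 ≤ W := by
    by_contra hcon
    have : W = 0 := by omega
    rw [this] at hj3
    omega
  have hgoal : W ≤ (3 * C.size + 1) * (p ^ (k - 1) * (k - 1).factorial) ^ 2 := by
    rcases Nat.lt_or_ge W 2 with hW2 | hW2
    · have h3 : 0 < (3 * C.size + 1) * (p ^ (k - 1) * (k - 1).factorial) ^ 2 := by
        have : 0 < p := by omega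
        positivity
      omega
    · refine hB n k p P H C π j χ₀ hk hp hC hχ₀ W rfl hW2 (lt_of_le_of_lt ?_ hnum)
      have h3 : (W : ℝ) ≤ cliques H k := by exact_mod_cast hWle
      have h4 : (0 : ℝ) ≤ W := Nat.cast_nonneg _
      have h5 : 0 ≤ (1 - qq (k - 1)) ^ p := pow_nonneg (by linarith) _
      apply mul_le_mul_of_nonneg_left _ h5
      have h6 : (0 : ℝ) ≤ 2 ^ k := by positivity
      apply mul_le_mul
      · exact mul_le_mul_of_nonneg_left h3 h6
      · linarith
      · linarith
      · positivity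
  exact hj3.trans (Nat.mul_le_mul_left _ hgoal)

/-- the combinatorial part -/
theorem comb' (hPt1 : P_PART) (hB : P_BLOCK) (hS : P_SPR) (hO : P_ONE) {k : ℕ} (hk : 2 ≤ k)
    {n : ℕ} (H : SimpleGraph (Fin n)) (hM : 2 ≤ cliques H k) (C : H540R2.Circuit (n.choose 2))
    {D : ℕ} (hD : Alternates C D)
    (hC : Separates H k C) {p P : ℕ} (hp : 2 ≤ p) (hP : 1 ≤ P)
    (hPt : 4 * ((D : ℝ) + 1) ≤ qq (k - 1) * P)
    (hpM : (1 - qq (k - 1)) ^ p * (2 ^ k * cliques H k * (3 * cliques H k + 1)) <
      qq (k - 1) / 2) :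
    cliques H k ≤ (32 * k * P) ^ k *
      (14 * (C.size + 1) * (p ^ (k - 1) * (k - 1).factorial) ^ 2) := by
  classical
  set R : ℕ := 32 * k * P with hR
  have hR1 : 1 ≤ R := by
    rw [hR]
    exact Nat.one_le_iff_ne_zero.2 (by positivity)
  have hPR : P ≤ R := by
    rw [hR]
    exact Nat.le_mul_of_pos_left P (by positivity)
  set E : ℕ := (p ^ (k - 1) * (k - 1).factorial) ^ 2 with hE
  have hE1 : 1 ≤ E := by
    rw [hE]
    exact Nat.one_le_iff_ne_zero.2 (by positivity)
  have hcard : ∀ s ∈ cl H k, s.card = k := fun s hs => (mem_cl.1 hs).card_eq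
  have hne : (cl H k).Nonempty := by
    rw [← Finset.card_pos, card_cl]
    omega
  obtain ⟨Z, ⟨s, hs, hZs⟩, h1, h2⟩ := hS n k R (cl H k) hne hcard hR1
  have hdg : ∀ Y : Finset (Fin n), ((cl H k).filter (fun s => Y ⊆ s)).card = dg H k Y := by
    intro Y
    unfold dg
    congr 1
  rw [hdg, card_cl] at h1
  have h2' : ∀ Y, Z ⊆ Y → dg H k Y * R ^ (Y.card - Z.card) ≤ dg H k Z := by
    intro Y hY
    have h3 := h2 Y hY
    rwa [hdg, hdg] at h3
  have hZk : Z.card ≤ k := by
    rw [← hcard s hs]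
    exact Finset.card_le_card hZs
  have hZc : H.IsClique (Z : Set (Fin n)) :=
    (mem_cl.1 hs).isClique.subset (by exact_mod_cast hZs)
  have hdM : dg H k Z ≤ cliques H k := by
    rw [← W2helper37.CU.dg_empty]
    exact dg_anti (Finset.empty_subset Z)
  have hd1 : 1 ≤ dg H k Z := by
    by_contra hcon
    have h3 : dg H k Z = 0 := by omega
    rw [h3, mul_zero] at h1
    omega
  rcases Nat.lt_or_ge (Z.card + 1) k with hlt | hge
  · -- the general case
    obtain ⟨H', C', hs', hsz, hnt, hY1, hY2⟩ := link' n k H Z C hD (by omega) hZc hC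
    set k' := k - Z.card with hk'
    have hk2 : 2 ≤ k' := by omega
    have hc' : cliques H' k' = dg H k Z := by
      rw [← W2helper37.CU.dg_empty, hY1 ∅ (Finset.disjoint_empty_left Z), Finset.union_empty]
    have hq' : qq (k - 1) ≤ qq (k' - 1) := W2helper37.CU.qq_anti (by omega) (by omega)
    have q0 : 0 < qq (k - 1) := W2helper37.CU.qq_pos (by omega)
    have q1 : qq (k' - 1) ≤ 1 := W2helper37.CU.qq_le (by omega)
    have hP0 : (0 : ℝ) ≤ P := Nat.cast_nonneg P
    have h3 := spreadN' hPt1 hB n k' p P R H' C' hnt hk2 hp hP hR1 hs' (by rw [hc']; exact hd1)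
      (by
        intro Y
        by_cases hd : Disjoint Y Z
        · rw [hY1 Y hd, hc']
          have h4 := h2' (Z ∪ Y) Finset.subset_union_left
          rw [Finset.card_union_of_disjoint hd.symm, Nat.add_sub_cancel_left] at h4
          exact h4
        · rw [hY2 Y hd]
          simp)
      (by
        rw [hR]
        exact W2helper37.CU.spread_cond (by omega) (by omega) hP)
      (by
        calc 4 * ((D : ℝ) + 1) ≤ qq (k - 1) * P := hPt
          _ ≤ qq (k' - 1) * P := mul_le_mul_of_nonneg_right hq' hP0)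
      (by
        have hMM : (cliques H' k' : ℝ) ≤ cliques H k := by
          rw [hc']
          exact_mod_cast hdM
        have hb : (1 - qq (k' - 1)) ^ p ≤ (1 - qq (k - 1)) ^ p :=
          pow_le_pow_left₀ (by linarith) (by linarith) p
        have h2k : (2 : ℝ) ^ k' ≤ 2 ^ k := pow_le_pow_right₀ (by norm_num) (by omega)
        calc (1 - qq (k' - 1)) ^ p * (2 ^ k' * cliques H' k' * (3 * cliques H' k' + 1))
            ≤ (1 - qq (k - 1)) ^ p * (2 ^ k * cliques H k * (3 * cliques H k + 1)) := by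
              have hb0 : 0 ≤ (1 - qq (k - 1)) ^ p := pow_nonneg (by linarith) p
              gcongr
          _ < qq (k - 1) / 2 := hpM
          _ ≤ qq (k' - 1) / 2 := by linarith)
    rw [hc'] at h3
    have h5 : p ^ (k' - 1) * (k' - 1).factorial ≤ p ^ (k - 1) * (k - 1).factorial :=
      Nat.mul_le_mul (Nat.pow_le_pow_right (by omega) (by omega))
        (Nat.factorial_le (by omega))
    have h6 : (3 * C'.size + 1) * (p ^ (k' - 1) * (k' - 1).factorial) ^ 2 ≤
        (7 * (C.size + 1)) * E := by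
      refine Nat.mul_le_mul (by omega) ?_
      rw [hE]
      exact Nat.pow_le_pow_left h5 2
    have h7 : R ^ Z.card * P ^ k' ≤ R ^ k := by
      calc R ^ Z.card * P ^ k' ≤ R ^ Z.card * R ^ k' :=
            Nat.mul_le_mul le_rfl (Nat.pow_le_pow_left hPR k')
        _ = R ^ k := by
            rw [← pow_add]
            congr 1
            omega
    calc cliques H k ≤ R ^ Z.card * dg H k Z := h1
      _ ≤ R ^ Z.card * (2 * P ^ k' * ((3 * C'.size + 1) *
          (p ^ (k' - 1) * (k' - 1).factorial) ^ 2)) := Nat.mul_le_mul le_rfl h3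
      _ = (R ^ Z.card * P ^ k') * (2 * ((3 * C'.size + 1) *
          (p ^ (k' - 1) * (k' - 1).factorial) ^ 2)) := by ring
      _ ≤ R ^ k * (2 * (7 * (C.size + 1) * E)) :=
          Nat.mul_le_mul h7 (Nat.mul_le_mul le_rfl h6)
      _ = R ^ k * (14 * (C.size + 1) * E) := by ring
  · -- at most one more vertex
    have hbound : dg H k Z ≤ 14 * (C.size + 1) := by
      rcases Nat.lt_or_ge Z.card k with h3 | h3
      · have h4 := hO n k H Z C hk (by omega) hZc hC
        omega
      · have h4 : dg H k Z ≤ 1 := by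
          rw [← hdg, Finset.card_le_one]
          intro a ha b hb
          rw [Finset.mem_filter] at ha hb
          have h5 : Z = a := Finset.eq_of_subset_of_card_le ha.2 (by rw [hcard a ha.1]; exact h3)
          have h6 : Z = b := Finset.eq_of_subset_of_card_le hb.2 (by rw [hcard b hb.1]; exact h3)
          rw [← h5, ← h6]
        omega
    calc cliques H k ≤ R ^ Z.card * dg H k Z := h1
      _ ≤ R ^ k * (14 * (C.size + 1)) :=
          Nat.mul_le_mul (Nat.pow_le_pow_right hR1 hZk) hbound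
      _ ≤ R ^ k * (14 * (C.size + 1) * E) :=
          Nat.mul_le_mul le_rfl (Nat.le_mul_of_pos_right _ hE1)

/-- The theorem for circuits with few alternations on every host. -/
def P_FINA : Prop := ∀ k : ℕ, 2 ≤ k → ∃ A : ℝ, ∀ (n : ℕ) (H : SimpleGraph (Fin n)),
  2 ≤ cliques H k → ∀ (C : H540R2.Circuit (n.choose 2)) (D : ℕ), Separates H k C →
  Alternates C D → (cliques H k : ℝ) ≤
    A * ((D : ℝ) + 1) ^ k * Real.log (cliques H k) ^ (2 * k - 2) * (C.size + 1)

theorem fina' (hPt1 : P_PART) (hB : P_BLOCK) (hS : P_SPR) (hO : P_ONE) : P_FINA := by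
  intro k hk
  set q : ℝ := qq (k - 1) with hq
  have hk1 : 1 ≤ k - 1 := by omega
  have q0 : 0 < q := W2helper37.CU.qq_pos hk1
  have q1 : q ≤ 1 := W2helper37.CU.qq_le hk1
  obtain ⟨d, d0, hd⟩ := W2helper37.CU.choose_p k q0 q1 (e := q / 2) (by positivity) (by linarith)
  have k0 : (0 : ℝ) < k := by
    have : 0 < k := by omega
    exact_mod_cast this
  refine ⟨14 * (160 * k / q) ^ k * (d ^ (k - 1) * ((k - 1).factorial : ℝ)) ^ 2, ?_⟩
  intro n H hN C D hC hD
  obtain ⟨p, hp2, hpd, hpM⟩ := hd (cliques H k) hN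
  set M : ℕ := cliques H k with hMd
  set T : ℝ := (D : ℝ) + 1 with hT
  have hT1 : 1 ≤ T := by
    rw [hT]
    have : (0 : ℝ) ≤ D := Nat.cast_nonneg D
    linarith
  have hT0 : 0 < T := by linarith
  set P : ℕ := ⌈4 * T / q⌉₊ with hPdef
  have hP0 : 0 < 4 * T / q := by positivity
  have hP1 : 1 ≤ P := Nat.one_le_ceil_iff.2 hP0
  have hPl : 4 * T / q ≤ (P : ℝ) := Nat.le_ceil _
  have hPt : 4 * T ≤ q * P := by
    rw [div_le_iff₀ q0] at hPl
    linarith
  have hPu : (P : ℝ) ≤ 5 * T / q := by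
    have h1 : (P : ℝ) < 4 * T / q + 1 := Nat.ceil_lt_add_one hP0.le
    have h2 : (1 : ℝ) ≤ T / q := by
      rw [le_div_iff₀ q0]
      linarith
    have h3 : 5 * T / q = 4 * T / q + T / q := by ring
    rw [h3]
    linarith
  have h := comb' hPt1 hB hS hO hk H hN C hD hC hp2 hP1 hPt hpM
  have h' : (M : ℝ) ≤ (32 * k * (P : ℝ)) ^ k *
      (14 * ((C.size : ℝ) + 1) * ((p : ℝ) ^ (k - 1) * ((k - 1).factorial : ℝ)) ^ 2) := by
    exact_mod_cast h
  have hR : (32 * (k : ℝ) * (P : ℝ)) ^ k ≤ (160 * k / q) ^ k * T ^ k := by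
    rw [← mul_pow]
    refine pow_le_pow_left₀ (by positivity) ?_ k
    calc 32 * (k : ℝ) * (P : ℝ) ≤ 32 * (k : ℝ) * (5 * T / q) := by gcongr
      _ = 160 * k / q * T := by ring
  have hpp : (p : ℝ) ^ (k - 1) ≤ d ^ (k - 1) * Real.log M ^ (k - 1) := by
    rw [← mul_pow]
    exact pow_le_pow_left₀ (by positivity) hpd _
  have hF : (0 : ℝ) ≤ ((k - 1).factorial : ℝ) := by positivity
  have h2 : ((p : ℝ) ^ (k - 1) * ((k - 1).factorial : ℝ)) ^ 2 ≤
      (d ^ (k - 1) * ((k - 1).factorial : ℝ)) ^ 2 * Real.log M ^ (2 * k - 2) := by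
    have e : Real.log M ^ (2 * k - 2) = (Real.log M ^ (k - 1)) ^ 2 := by
      rw [← pow_mul]
      congr 1
      omega
    rw [e, ← mul_pow]
    refine pow_le_pow_left₀ (by positivity) ?_ 2
    calc (p : ℝ) ^ (k - 1) * ((k - 1).factorial : ℝ)
        ≤ (d ^ (k - 1) * Real.log M ^ (k - 1)) * ((k - 1).factorial : ℝ) :=
          mul_le_mul_of_nonneg_right hpp hF
      _ = d ^ (k - 1) * ((k - 1).factorial : ℝ) * Real.log M ^ (k - 1) := by ring
  calc (M : ℝ) ≤ (32 * k * (P : ℝ)) ^ k *
      (14 * ((C.size : ℝ) + 1) * ((p : ℝ) ^ (k - 1) * ((k - 1).factorial : ℝ)) ^ 2) := h'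
    _ ≤ ((160 * k / q) ^ k * T ^ k) * (14 * ((C.size : ℝ) + 1) *
        ((d ^ (k - 1) * ((k - 1).factorial : ℝ)) ^ 2 * Real.log M ^ (2 * k - 2))) := by
        gcongr
    _ = _ := by ring

end Pool.Agent.W2helper22.CU
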