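import Pool.Agent.W2helper22.CU.Asm
import Pool.Agent.W2helper22.CU.NotBound
import Pool.Agent.W2helper22.CU.AltFin

/-!
# Hosts with many cliques: no small circuits with few alternations
-/

set_option autoImplicit false

namespace Pool.Agent.W2helper22.CU

open Filter Pool.Agent.H540R2 Pool.Agent.W2helper86.KQ

theorem p_fina : P_FINA :=
  fina' W2helper82.CU.p_part (W2helper46.CU.p_BLOCK p_mainr) W2helper82.CU.p_spr
    W2helper39.CU.p_one

theorem alt_bound (H : ∀ k n : ℕ, SimpleGraph (Fin n)) (c ε : ℝ) (hc : 0 < c) (hε : 0 < ε)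
    (hH : ∀ᶠ k : ℕ in atTop, ∀ᶠ n : ℕ in atTop, (n : ℝ) ^ (c * k) ≤ cliques (H k n) k)
    (f : ℕ → ℕ) (g : ℕ → ℝ) (hg : Tendsto (fun k : ℕ => g k / k) atTop (nhds 0)) :
    ∀ᶠ k : ℕ in atTop, ∀ᶠ n : ℕ in atTop, ∀ (C : Circuit (n.choose 2)) (D : ℕ),
      Separates (H k n) k C → Alternates C D → (D : ℝ) + 1 ≤ (n : ℝ) ^ (c - ε) →
        (f k : ℝ) * (n : ℝ) ^ g k < C.size := by
  have hg' : ∀ᶠ k : ℕ in atTop, g k / k < ε / 2 := hg.eventually (gt_mem_nhds (by positivity))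
  filter_upwards [hH, hg', eventually_ge_atTop 2] with k hk hgk hk2
  have hk0 : (0 : ℝ) < k := by positivity
  have hgk' : g k < ε / 2 * k := by rwa [div_lt_iff₀ hk0] at hgk
  obtain ⟨A, hA⟩ := p_fina k hk2
  -- the constant
  set B : ℝ := |A| * (k : ℝ) ^ (2 * k - 2) * (f k + 1) + 1 with hB
  have hB0 : 0 < B := by positivity
  have hlog : ∀ᶠ n : ℕ in atTop,
      Real.log n ^ (2 * k - 2) * B ≤ (n : ℝ) ^ (ε / 2 * k) := by
    have h1 : (fun x : ℝ => Real.log x ^ (((2 * k - 2 : ℕ)) : ℝ)) =o[atTop]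
        (fun x : ℝ => x ^ (ε / 2 * k)) :=
      isLittleO_log_rpow_rpow_atTop _ (by positivity)
    have h2 := (h1.comp_tendsto (tendsto_natCast_atTop_atTop (R := ℝ))).bound
      (inv_pos.2 hB0)
    filter_upwards [h2, eventually_ge_atTop 1] with n hn hn1
    have hlog0 : 0 ≤ Real.log n := Real.log_nonneg (by exact_mod_cast hn1)
    simp only [Function.comp_apply, Real.rpow_natCast, Real.norm_eq_abs] at hn
    rw [abs_of_nonneg (pow_nonneg hlog0 _), abs_of_nonneg (by positivity),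
      inv_mul_eq_div, le_div_iff₀ hB0] at hn
    exact hn
  have hbig : ∀ᶠ n : ℕ in atTop, (2 : ℝ) ≤ (n : ℝ) ^ (c * k) :=
    ((tendsto_rpow_atTop (by positivity)).comp
      (tendsto_natCast_atTop_atTop (R := ℝ))).eventually_ge_atTop 2
  filter_upwards [hk, hlog, hbig, eventually_ge_atTop 2] with n hn hl h2 hn2
  intro C D hC hD hnot
  by_contra hcon
  push Not at hcon
  have hn1 : (1 : ℝ) ≤ n := by exact_mod_cast (by omega : 1 ≤ n)
  have hn0 : (0 : ℝ) < n := by linarith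
  have hM2 : 2 ≤ cliques (H k n) k := by exact_mod_cast h2.trans hn
  have hmain := hA n (H k n) hM2 C D hC hD
  have hMn : (cliques (H k n) k : ℝ) ≤ (n : ℝ) ^ k := by exact_mod_cast cliques_le_pow (H k n) k
  have hMpos : (0 : ℝ) < cliques (H k n) k := by
    have : (2 : ℝ) ≤ cliques (H k n) k := by exact_mod_cast hM2
    linarith
  have hlogM : Real.log (cliques (H k n) k) ≤ k * Real.log n := by
    rw [← Real.log_pow]
    exact Real.log_le_log hMpos hMn
  have hlogM0 : 0 ≤ Real.log (cliques (H k n) k) :=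
    Real.log_nonneg (by exact_mod_cast (by omega : 1 ≤ cliques (H k n) k))
  have hlogn0 : 0 ≤ Real.log n := Real.log_nonneg hn1
  -- the NOT gates
  have h2pow : ((D : ℝ) + 1) ^ k ≤ (n : ℝ) ^ ((c - ε) * k) := by
    have e1 : (n : ℝ) ^ ((c - ε) * k) = ((n : ℝ) ^ (c - ε)) ^ k := by
      rw [Real.rpow_mul hn0.le, Real.rpow_natCast]
    rw [e1]
    exact pow_le_pow_left₀ (by positivity) hnot k
  have hsize : (C.size : ℝ) + 1 ≤ (f k + 1) * (n : ℝ) ^ (ε / 2 * k) := by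
    have e1 : (n : ℝ) ^ g k ≤ (n : ℝ) ^ (ε / 2 * k) :=
      Real.rpow_le_rpow_of_exponent_le hn1 hgk'.le
    have e2 : (1 : ℝ) ≤ (n : ℝ) ^ (ε / 2 * k) := Real.one_le_rpow hn1 (by positivity)
    have e3 : (f k : ℝ) * (n : ℝ) ^ g k ≤ f k * (n : ℝ) ^ (ε / 2 * k) :=
      mul_le_mul_of_nonneg_left e1 (Nat.cast_nonneg _)
    nlinarith
  have hX : (0 : ℝ) < (n : ℝ) ^ ((c - ε) * k) := Real.rpow_pos_of_pos hn0 _
  have hY : (0 : ℝ) < (n : ℝ) ^ (ε / 2 * k) := Real.rpow_pos_of_pos hn0 _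
  have hsplit : (n : ℝ) ^ (c * k) = (n : ℝ) ^ ((c - ε) * k) *
      ((n : ℝ) ^ (ε / 2 * k) * (n : ℝ) ^ (ε / 2 * k)) := by
    rw [← Real.rpow_add hn0, ← Real.rpow_add hn0]
    congr 1
    ring
  have hchain : (n : ℝ) ^ (c * k) ≤ (n : ℝ) ^ ((c - ε) * k) *
      ((|A| * (k : ℝ) ^ (2 * k - 2) * (f k + 1)) * Real.log n ^ (2 * k - 2) *
        (n : ℝ) ^ (ε / 2 * k)) := by
    calc (n : ℝ) ^ (c * k) ≤ cliques (H k n) k := hn
      _ ≤ A * ((D : ℝ) + 1) ^ k * Real.log (cliques (H k n) k) ^ (2 * k - 2) * (C.size + 1) := hmain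
      _ ≤ |A| * ((D : ℝ) + 1) ^ k * Real.log (cliques (H k n) k) ^ (2 * k - 2) * (C.size + 1) := by
          gcongr
          exact le_abs_self A
      _ ≤ |A| * (n : ℝ) ^ ((c - ε) * k) * (k * Real.log n) ^ (2 * k - 2) *
            ((f k + 1) * (n : ℝ) ^ (ε / 2 * k)) := by
          gcongr
      _ = _ := by rw [mul_pow]; ring
  have hfin : (n : ℝ) ^ ((c - ε) * k) *
      ((|A| * (k : ℝ) ^ (2 * k - 2) * (f k + 1)) * Real.log n ^ (2 * k - 2) *
        (n : ℝ) ^ (ε / 2 * k)) < (n : ℝ) ^ (c * k) := by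
    rw [hsplit]
    have hlt : (|A| * (k : ℝ) ^ (2 * k - 2) * (f k + 1)) * Real.log n ^ (2 * k - 2) <
        (n : ℝ) ^ (ε / 2 * k) := by
      rcases (pow_nonneg hlogn0 (2 * k - 2)).eq_or_lt with h0 | h0
      · rw [← h0, mul_zero]; exact hY
      · calc (|A| * (k : ℝ) ^ (2 * k - 2) * (f k + 1)) * Real.log n ^ (2 * k - 2) <
              B * Real.log n ^ (2 * k - 2) := by
              apply mul_lt_mul_of_pos_right _ h0
              rw [hB]; linarith
          _ = Real.log n ^ (2 * k - 2) * B := mul_comm _ _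
          _ ≤ _ := hl
    exact mul_lt_mul_of_pos_left (mul_lt_mul_of_pos_right hlt hY) hX
  exact absurd (hchain.trans_lt hfin) (lt_irrefl _)

end Pool.Agent.W2helper22.CU
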