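import Pool.Agent.W2helper22.CU.Model

/-!
# Interface statements of the project
-/

set_option autoImplicit false

namespace Pool.Agent.W2helper22.CU

open Filter Pool.Agent.H540R2 Pool.Agent.W2helper86.KQ

/-! ## Projections of a set of tuples -/

/-- the elements of `S` which agree with `x` on `J` -/
def fib {K N : ℕ} (S : Finset (Fin K → Fin N)) (J : Finset (Fin K)) (x : Fin K → Fin N) :
    Finset (Fin K → Fin N) :=
  S.filter (fun y => ∀ i ∈ J, y i = x i)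

/-- the number of restrictions to `J` of the elements of `S` -/
def pc {K N : ℕ} (S : Finset (Fin K → Fin N)) (J : Finset (Fin K)) : ℕ :=
  (S.image (fun x (i : J) => x i)).card

/-- **REG.** A large subset whose projections are nearly uniform. Proof: `S'` is a nonempty subset
of `S` which maximises `|S'| ^ M / ∏ J, pc S' J`. -/
def P_REG : Prop := ∀ (K N : ℕ) (S : Finset (Fin K → Fin N)), S.Nonempty → ∀ M : ℕ, 2 ≤ M →
  ∃ S' ⊆ S, S'.Nonempty ∧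
    (S.card : ℝ) ^ M ≤ (S'.card : ℝ) ^ M * (N : ℝ) ^ (K * 2 ^ K) ∧
    (∀ (J : Finset (Fin K)), ∀ x ∈ S', S'.card ≤ M * pc S' J * (fib S' J x).card) ∧
    (∀ (J : Finset (Fin K)) (β : ℝ), 1 ≤ β →
      ((S'.filter (fun x => β * S'.card ≤ pc S' J * (fib S' J x).card)).card : ℝ) ^ (M - 1) * β ≤
        (S'.card : ℝ) ^ (M - 1))

/-- **GOOD.** A point whose fibres all have about the average number of projections. -/
def P_GOOD : Prop := ∀ (K N : ℕ) (S : Finset (Fin K → Fin N)), S.Nonempty → ∀ M : ℕ, 1 ≤ M →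
  ∀ β : ℝ, 1 ≤ β →
  (∀ (J : Finset (Fin K)), ∀ x ∈ S, S.card ≤ M * pc S J * (fib S J x).card) →
  (∀ J : Finset (Fin K), 4 ^ (K + 1) *
    (S.filter (fun x => β * S.card ≤ pc S J * (fib S J x).card)).card ≤ S.card) →
  ∃ x ∈ S, ∀ J J' : Finset (Fin K), J ⊆ J' →
    (pc (fib S J x) J' : ℝ) * pc S J ≤ β * M * pc S J' ∧
    (pc S J' : ℝ) ≤ 2 * M * β * pc S J * pc (fib S J x) J'

/-- **GREEDY.** An abstract lemma on set functions with almost decreasing increments. -/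
def P_GREEDY : Prop := ∀ (K k : ℕ) (h : Finset (Fin K) → ℝ) (c ε ζ : ℝ),
  0 < c → c ≤ 1 → 0 < ε → ε ≤ 1 → 0 ≤ ζ → 32 * ζ ≤ ε * c → 1 ≤ k → 264 * (k : ℝ) ≤ ε * c ^ 2 * K →
  h ∅ = 0 → (∀ J i, h J ≤ h (insert i J)) → (∀ J i, h (insert i J) ≤ h J + 1) →
  (∀ J J' : Finset (Fin K), J ⊆ J' → ∀ i, h (insert i J') - h J' ≤ h (insert i J) - h J + ζ) →
  c * K / 2 ≤ h Finset.univ →
  ∃ J W : Finset (Fin K), Disjoint J W ∧ W.card = k ∧ (∀ i ∈ W, c / 8 ≤ h (insert i J) - h J) ∧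
    ∑ i ∈ W, (h (insert i J) - h J) - ε * k ≤ h (J ∪ W) - h J

/-- **CORE.** In a set of `N ^ (c K)` tuples of length `K` one can fix the coordinates in a set
`J` such that in a set `W` of `k ≥ δ K` other coordinates the remaining tuples have density
`N ^ (-ε k)` in a product of sets of size `N ^ (c / 16)`. -/
def P_CORE : Prop := ∀ c ε : ℝ, 0 < c → c ≤ 1 → 0 < ε → ε ≤ 1 →
  ∀ K k : ℕ, 1 ≤ k → 264 * (k : ℝ) ≤ ε * c ^ 2 * K → ∀ᶠ N : ℕ in atTop,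
  ∀ S : Finset (Fin K → Fin N), (N : ℝ) ^ (c * K) ≤ (K : ℝ) ^ K * S.card →
  ∃ (J W : Finset (Fin K)) (a : Fin K → Fin N) (B : W → Finset (Fin N)), Disjoint J W ∧
    W.card = k ∧ (∀ i, (N : ℝ) ^ (c / 16) ≤ (B i).card) ∧
    (∀ i, ∀ b ∈ B i, ∃ z ∈ S, z i = b) ∧
    (N : ℝ) ^ (-(3 * ε * k)) * ∏ i, ((B i).card : ℝ) ≤
      ((Fintype.piFinset B).filter (fun y => ∃ z ∈ S, (∀ i ∈ J, z i = a i) ∧
        ∀ i : W, z i = y i)).card

/-- **HOST.** A colouring of the vertices such that many cliques are colourful. -/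
def P_HOST : Prop := ∀ (K N : ℕ) (H : SimpleGraph (Fin N)), 1 ≤ K → ∃ κ : Fin N → Fin K,
  ∃ S : Finset (Fin K → Fin N), cliques H K ≤ K ^ K * S.card ∧
    ∀ z ∈ S, (∀ i, κ (z i) = i) ∧ ∀ i j, i ≠ j → H.Adj (z i) (z j)

/-- **COVER.** Few tuples of injections bring every tuple of vertices into the dense set `T`. -/
def P_COVER : Prop := ∀ (ι : Type) [Fintype ι] [DecidableEq ι] (n N : ℕ) (B : ι → Finset (Fin N)),
  (∀ i, n ≤ (B i).card) → ∀ T ⊆ Fintype.piFinset B, ∀ τ : ℝ, 0 < τ →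
  τ * ∏ i, ((B i).card : ℝ) ≤ T.card → ∀ m : ℕ,
  (n : ℝ) ^ Fintype.card ι * Real.exp (-(τ * m)) < 1 →
  ∃ φ : Fin m → ι → Fin n → Fin N, (∀ r i, Function.Injective (φ r i)) ∧
    (∀ r i u, φ r i u ∈ B i) ∧ ∀ u : ι → Fin n, ∃ r, (fun i => φ r i (u i)) ∈ T

/-- The input of a circuit after a substitution of input variables and constants. -/
def sub {N n : ℕ} (σ : Fin N → Fin n ⊕ Bool) (x : Fin n → Bool) : Fin N → Bool :=
  fun e => (σ e).elim x id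

/-- **SUBST.** The substitution which embeds a graph into the host. -/
def P_SUBST : Prop := ∀ (K N n k : ℕ) (H : SimpleGraph (Fin N)) (κ : Fin N → Fin K)
  (J W : Finset (Fin K)) (a : Fin K → Fin N) (φ : W → Fin n → Fin N), 2 ≤ K → Disjoint J W →
  W.card = k →
  (∀ i, Function.Injective (φ i)) → (∀ i u, κ (φ i u) = i) →
  ∃ σ : Fin (N.choose 2) → Fin (n.choose 2) ⊕ Bool, ∀ x : Fin (n.choose 2) → Bool,
    graph (sub σ x) ≤ H ∧
    (¬ (graph (sub σ x)).CliqueFree K → ¬ (graph x).CliqueFree k) ∧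
    ∀ u : W → Fin n, (∀ i j, i ≠ j → (graph x).Adj (u i) (u j)) →
      (∃ z : Fin K → Fin N, (∀ i, κ (z i) = i) ∧ (∀ i j, i ≠ j → H.Adj (z i) (z j)) ∧
        (∀ i ∈ J, z i = a i) ∧ ∀ i : W, z i = φ i (u i)) →
      ¬ (graph (sub σ x)).CliqueFree K

/-- **ORS.** The disjunction of `m` substitutions into a circuit. -/
def P_ORS : Prop := ∀ (N n m : ℕ) (C : Circuit N) (σ : Fin m → Fin N → Fin n ⊕ Bool),
  ∃ C' : Circuit n, C'.size ≤ m * (C.size + 1) + 1 ∧ C'.nots ≤ m * C.nots ∧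
    ∀ x, C'.eval x = true ↔ ∃ r, C.eval (sub (σ r) x) = true

/-- **TRIV.** The disjunction over the cliques of the host. -/
def P_TRIV : Prop := ∀ (n k : ℕ) (H : SimpleGraph (Fin n)), 1 ≤ k →
  ∃ C : Circuit (n.choose 2), C.nots = 0 ∧ C.size ≤ (k ^ 2 + 1) * cliques H k + 1 ∧
    Decides H k C

/-- **TRANSFER.** -/
def P_TRANSFER : Prop := ∀ c ε : ℝ, 0 < c → c ≤ 1 → 0 < ε → ε ≤ 1 →
  ∀ K k : ℕ, 1 ≤ k → 264 * (k : ℝ) ≤ ε * c ^ 2 * K → ∀ᶠ N : ℕ in atTop,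
  ∀ H : SimpleGraph (Fin N), (N : ℝ) ^ (c * K) ≤ cliques H K →
  ∀ n : ℕ, 2 ≤ n → (n : ℝ) ≤ (N : ℝ) ^ (c / 16) →
  ∀ C : Circuit (N.choose 2), Decides H K C →
  ∃ C' : Circuit (n.choose 2), (C'.size : ℝ) ≤ (N : ℝ) ^ (4 * ε * k) * (C.size + 1) ∧
    (C.nots = 0 → C'.nots = 0) ∧ Decides ⊤ k C'

/-- **GENERAL.** -/
def P_GENERAL : Prop := ∀ H : ∀ k n : ℕ, SimpleGraph (Fin n), Many H →
  (Easy H ↔ Easy (fun _ _ => ⊤))

/-- **MONO.** -/
def P_MONO : Prop := ∀ c : ℝ, 0 < c → ∃ c' : ℝ, 0 < c' ∧ ∀ᶠ k : ℕ in atTop, ∀ᶠ n : ℕ in atTop,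
  ∀ H : SimpleGraph (Fin n), (n : ℝ) ^ (c * k) ≤ cliques H k →
  ∀ C : Circuit (n.choose 2), C.nots = 0 → Decides H k C → (n : ℝ) ^ (c' * k) ≤ C.size

end Pool.Agent.W2helper22.CU
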