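import Pool.Agent.W2helper22.CU.AltDefs
import Pool.Agent.W2helper17.CU.Chain
import Pool.Agent.W2helper46.CU.Block
import Pool.Agent.W2helper39.CU.Link
import Pool.Agent.W2helper37.CU.Finn

/-!
# Circuits with few alternations on every host: the chain argument and the link
-/

set_option autoImplicit false

namespace Pool.Agent.W2helper22.CU

open Finset Pool.Agent.H540R2 Pool.Agent.W2helper86.KQ Pool.Agent.H520R2 Pool.Agent.H520R2.NM
  Pool.Agent.W2helper17.CU

/-- if the NOT gates do not change, the probes do not change -/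
lemma probes_congr {N : ℕ} {ι : Type} (ν : Fin N → ι ⊕ Bool) (C : H540R2.Circuit N)
    (z z' : ι → Bool) : ∀ s : ℕ, s ≤ C.size →
    (∀ g, IsNot C g → C.val (W953.KC.sx ν z) g = C.val (W953.KC.sx ν z') g) →
    (W953.KC.build ν C s).probes z = (W953.KC.build ν C s).probes z' := by
  intro s
  induction s with
  | zero => intro _ _; rfl
  | succ s ih =>
    intro hs hg
    have ih' := ih (by omega) hg
    cases hC : C.gate s with
    | and a b =>
      simp only [W953.KC.build, hC, NM.Circuit.probes]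
      exact ih'
    | or a b =>
      simp only [W953.KC.build, hC, NM.Circuit.probes]
      exact ih'
    | not a =>
      simp only [W953.KC.build, hC, NM.Circuit.probes]
      rw [ih']
      congr 1
      congr 1
      funext j
      have h1 := hg s ⟨by omega, a, hC⟩
      rw [H540R2.Circuit.val, H540R2.Circuit.val, hC] at h1
      simp only [Gate.eval] at h1
      rw [W953.KC.wireOf_eval ν s z _ (C.val (W953.KC.sx ν z)) (W953.KC.build_vals ν C z s) a,
        W953.KC.wireOf_eval ν s z' _ (C.val (W953.KC.sx ν z')) (W953.KC.build_vals ν C z' s) a]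
      have h2 := congrArg not h1
      rw [Bool.not_not, Bool.not_not] at h2
      exact h2

open Classical in
/-- the number of blocks in which the gates change along one chain -/
theorem card_change' {n κ P : ℕ} (H : SimpleGraph (Fin n)) (C : H540R2.Circuit (n.choose 2))
    {D : ℕ} (hD : Alternates C D) (π : Fin n → Fin P) (χ : Fin n → Fin κ) :
    (univ.filter (fun j : Fin P =>
      (W953.KC.build (fun i => (Sum.inl i : Fin (n.choose 2) ⊕ Bool)) C C.size).probes
        (bits (mixR H π j χ χ)) ≠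
      (W953.KC.build (fun i => (Sum.inl i : Fin (n.choose 2) ⊕ Bool)) C C.size).probes
        (bits (baseR H π j χ)))).card ≤ D := by
  rw [← Finset.card_map Fin.valEmbedding]
  apply hD (fun i => bits (stg H π χ i))
  · intro i p hp
    have h := bits_mono (R := stg H π χ i) (S := stg H π χ (i + 1)) (by
      rintro u v ⟨h1, h2, h3, h4⟩
      exact ⟨h1, h2, by omega, h4⟩) p
    have hp' : bits (stg H π χ i) p = true := hp
    rw [hp'] at h
    exact Bool.eq_true_of_true_le h
  · intro i hi
    obtain ⟨j, hj, rfl⟩ := Finset.mem_map.1 hi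
    have hj' := (Finset.mem_filter.1 hj).2
    rw [stg_mix, stg_base] at hj'
    by_contra hcon
    push Not at hcon
    apply hj'
    exact probes_congr _ C _ _ C.size le_rfl (fun g hg => (hcon g hg).symm)

theorem chain' (n κ P : ℕ) (H : SimpleGraph (Fin n))
    (C : H540R2.Circuit (n.choose 2)) {D : ℕ} (hD : Alternates C D) (π : Fin n → Fin P) (δ : ℝ)
    (hκ : 1 ≤ κ) :
    ({j : Fin P | ∀ χ₀ : Fin n → Fin κ, δ * (κ : ℝ) ^ n < ({χ : Fin n → Fin κ |
      (W953.KC.build (fun i => (Sum.inl i : Fin (n.choose 2) ⊕ Bool)) C C.size).probes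
        (bits (mixR H π j χ₀ χ)) ≠
      (W953.KC.build (fun i => (Sum.inl i : Fin (n.choose 2) ⊕ Bool)) C C.size).probes
        (bits (baseR H π j χ₀))}.ncard : ℝ)}.ncard : ℝ) * δ ≤ D := by
  classical
  set B0 := W953.KC.build (fun i => (Sum.inl i : Fin (n.choose 2) ⊕ Bool)) C C.size with hB0
  -- the change in block `j` for the pair of colourings
  set ch : Fin P → (Fin n → Fin κ) → (Fin n → Fin κ) → Prop := fun j χ₀ χ =>
    B0.probes (bits (mixR H π j χ₀ χ)) ≠ B0.probes (bits (baseR H π j χ₀)) with hch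
  have hmx : ∀ j χ₀ χ, ch j χ₀ χ ↔ ch j (mx π j χ₀ χ) (mx π j χ₀ χ) := by
    intro j χ₀ χ
    simp only [hch]
    rw [mixR_mx, baseR_mx]
  have hcardF : Fintype.card (Fin n → Fin κ) = κ ^ n := by simp
  have hpos : (0 : ℝ) < (κ : ℝ) ^ n := by positivity
  set T : Fin P → Finset (Fin n → Fin κ) := fun j => univ.filter (fun χ => ch j χ χ) with hT
  set B : Finset (Fin P) := univ.filter (fun j => ∀ χ₀ : Fin n → Fin κ,
    δ * (κ : ℝ) ^ n < ({χ : Fin n → Fin κ | ch j χ₀ χ}.ncard : ℝ)) with hB
  have hBcard : ({j : Fin P | ∀ χ₀ : Fin n → Fin κ, δ * (κ : ℝ) ^ n < ({χ : Fin n → Fin κ |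
      B0.probes (bits (mixR H π j χ₀ χ)) ≠ B0.probes (bits (baseR H π j χ₀))}.ncard : ℝ)}.ncard)
      = B.card := by
    rw [Set.ncard_eq_toFinset_card']
    congr 1
    ext j
    simp only [Set.mem_toFinset, Set.mem_ofPred_eq, hB, Finset.mem_filter, Finset.mem_univ,
      true_and, hch]
  rw [hBcard]
  -- one bad block
  have hbad : ∀ j ∈ B, δ * (κ : ℝ) ^ n ≤ ((T j).card : ℝ) := by
    intro j hj
    have hj' := (Finset.mem_filter.mp hj).2
    have e1 : (κ : ℝ) ^ n * (δ * (κ : ℝ) ^ n) ≤
        ∑ χ₀ : Fin n → Fin κ, ((univ.filter (fun χ => ch j χ₀ χ)).card : ℝ) := by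
      have : ∑ χ₀ : Fin n → Fin κ, (δ * (κ : ℝ) ^ n) ≤
          ∑ χ₀ : Fin n → Fin κ, ((univ.filter (fun χ => ch j χ₀ χ)).card : ℝ) := by
        apply Finset.sum_le_sum
        intro χ₀ _
        have h := (hj' χ₀).le
        rw [Set.ncard_eq_toFinset_card'] at h
        refine h.trans (le_of_eq ?_)
        congr 2
        ext χ
        simp
      rw [Finset.sum_const, Finset.card_univ, hcardF, nsmul_eq_mul] at this
      push_cast at this
      exact this
    have e2 : ∑ χ₀ : Fin n → Fin κ, (univ.filter (fun χ => ch j χ₀ χ)).card ≤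
        (T j).card * κ ^ n := by
      have e3 : ∑ χ₀ : Fin n → Fin κ, (univ.filter (fun χ => ch j χ₀ χ)).card =
          (univ.filter (fun q : (Fin n → Fin κ) × (Fin n → Fin κ) => ch j q.1 q.2)).card := by
        rw [← Finset.card_sigma]
        apply Finset.card_bij (fun q _ => (q.1, q.2))
        · rintro ⟨a, b⟩ hq
          simp only [Finset.mem_sigma, Finset.mem_univ, Finset.mem_filter, true_and] at hq
          simp only [Finset.mem_filter, Finset.mem_univ, true_and]
          exact hq
        · rintro ⟨a, b⟩ _ ⟨a', b'⟩ _ h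
          simp only [Prod.mk.injEq] at h
          obtain ⟨rfl, rfl⟩ := h
          rfl
        · rintro ⟨a, b⟩ hq
          refine ⟨⟨a, b⟩, ?_, rfl⟩
          simp only [Finset.mem_filter, Finset.mem_univ, true_and] at hq
          simp only [Finset.mem_sigma, Finset.mem_univ, Finset.mem_filter, true_and]
          exact hq
      rw [e3, ← hcardF, ← Finset.card_univ, ← Finset.card_product]
      apply Finset.card_le_card_of_injOn (fun q => (mx π j q.1 q.2, mx π j q.2 q.1))
      · rintro ⟨a, b⟩ hq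
        have hq' := (Finset.mem_filter.mp hq).2
        refine Finset.mem_coe.mpr (Finset.mem_product.mpr ⟨?_, Finset.mem_univ _⟩)
        exact Finset.mem_filter.mpr ⟨Finset.mem_univ _, (hmx j a b).mp hq'⟩
      · rintro ⟨a, b⟩ _ ⟨a', b'⟩ _ h
        simp only [Prod.mk.injEq] at h
        obtain ⟨h1, h2⟩ := h
        have ha : a = a' := by
          rw [← mx_mx π j a b, h1, h2, mx_mx]
        have hb : b = b' := by
          rw [← mx_mx π j b a, h2, h1, mx_mx]
        rw [ha, hb]
    have e4 : (κ : ℝ) ^ n * (δ * (κ : ℝ) ^ n) ≤ ((T j).card : ℝ) * (κ : ℝ) ^ n := by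
      refine e1.trans ?_
      exact_mod_cast e2
    rw [mul_comm] at e4
    exact le_of_mul_le_mul_right e4 hpos
  -- all blocks together
  have hall : ∑ j : Fin P, (T j).card ≤ κ ^ n * D := by
    have e1 : ∑ j : Fin P, (T j).card =
        ∑ χ : Fin n → Fin κ, (univ.filter (fun j : Fin P => ch j χ χ)).card := by
      simp only [hT, Finset.card_filter]
      exact Finset.sum_comm
    rw [e1]
    calc ∑ χ : Fin n → Fin κ, (univ.filter (fun j : Fin P => ch j χ χ)).card
        ≤ ∑ _χ : Fin n → Fin κ, D :=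
          Finset.sum_le_sum (fun χ _ => card_change' H C hD π χ)
      _ = κ ^ n * D := by
          rw [Finset.sum_const, Finset.card_univ, hcardF, smul_eq_mul]
  have h1 : (B.card : ℝ) * (δ * (κ : ℝ) ^ n) ≤ (κ : ℝ) ^ n * (D : ℕ) := by
    calc (B.card : ℝ) * (δ * (κ : ℝ) ^ n) = ∑ _j ∈ B, (δ * (κ : ℝ) ^ n) := by
          rw [Finset.sum_const, nsmul_eq_mul]
      _ ≤ ∑ j ∈ B, ((T j).card : ℝ) := Finset.sum_le_sum hbad
      _ ≤ ∑ j : Fin P, ((T j).card : ℝ) :=
          Finset.sum_le_sum_of_subset_of_nonneg (Finset.subset_univ _)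
            (fun _ _ _ => Nat.cast_nonneg _)
      _ ≤ (κ : ℝ) ^ n * (D : ℕ) := by exact_mod_cast hall
  have h2 : ((B.card : ℝ) * δ) * (κ : ℝ) ^ n ≤ ((D : ℕ) : ℝ) * (κ : ℝ) ^ n := by
    linarith
  exact le_of_mul_le_mul_right h2 hpos

end Pool.Agent.W2helper22.CU
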