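import Pool.Agent.W2helper22.CU.Model2
import Pool.Agent.W2helper22.AL.Abs

/-!
# Alternations and nesting levels of the NOT gates of a circuit
-/

set_option autoImplicit false

namespace Pool.Agent.W2helper22.CU

open Finset Pool.Agent.H540R2

variable {N : ℕ}

/-- gate `g` is a NOT gate of the circuit -/
def IsNot (C : Circuit N) (g : ℕ) : Prop := g < C.size ∧ ∃ a, C.gate g = Gate.not a

/-- Each increasing chain of inputs has at most `D` steps at which some NOT gate of the circuit
changes its value. -/
def Alternates (C : Circuit N) (D : ℕ) : Prop :=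
  ∀ x : ℕ → Fin N → Bool, (∀ i p, x i p = true → x (i + 1) p = true) → ∀ J : Finset ℕ,
    (∀ i ∈ J, ∃ g, IsNot C g ∧ C.val (x i) g ≠ C.val (x (i + 1)) g) → J.card ≤ D

/-- At most `h` NOT gates lie on each path: the gates have levels `lev g ≤ h`, which do not
decrease from an argument to its gate, increase from an argument to a NOT gate, and are at least
`1` at the NOT gates. -/
def Nesting (C : Circuit N) (h : ℕ) (lev : ℕ → ℕ) : Prop :=
  (∀ g < C.size, lev g ≤ h ∧ ∀ j, (C.gate g).wires j ≠ 0 → lev j ≤ lev g) ∧
    ∀ g, IsNot C g → 1 ≤ lev g ∧ ∀ j, (C.gate g).wires j ≠ 0 → lev j < lev g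

lemma node_mono {x y : Fin N → Bool} {v w : ℕ → Bool} (hx : ∀ p, x p = true → y p = true)
    (a : Node N) (hv : ∀ j, a.wires j ≠ 0 → v j = true → w j = true) :
    a.eval x v = true → a.eval y w = true := by
  cases a with
  | var i => exact hx i
  | const b => exact id
  | gate j => exact hv j (by simp [Node.wires])

/-- gates are monotone while the NOT gates of lower level do not change -/
lemma mono_lev {C : Circuit N} {h : ℕ} {lev : ℕ → ℕ} (hl : Nesting C h lev)
    {x y : Fin N → Bool} (hx : ∀ p, x p = true → y p = true) {l : ℕ}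
    (hsame : ∀ i, IsNot C i → lev i ≤ l → C.val x i = C.val y i) :
    ∀ g, g < C.size → lev g ≤ l → C.val x g = true → C.val y g = true := by
  intro g
  induction g using Nat.strong_induction_on with
  | _ g ih =>
    intro hg hlg hxg
    have key : ∀ j, (C.gate g).wires j ≠ 0 →
        (fun j => if _h : j < g then C.val x j else false) j = true →
        (fun j => if _h : j < g then C.val y j else false) j = true := by
      intro j hj hj2
      have h1 := C.gate_lt g hg j hj
      simp only [h1, dite_true] at hj2 ⊢
      exact ih j h1 (h1.trans hg) (((hl.1 g hg).2 j hj).trans hlg) hj2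
    cases hC : C.gate g with
    | not a => rw [← hsame g ⟨hg, a, hC⟩ hlg]; exact hxg
    | and a b =>
      rw [hC] at key
      rw [H540R2.Circuit.val, hC] at hxg ⊢
      simp only [Gate.eval, Bool.and_eq_true] at hxg ⊢
      exact ⟨node_mono hx a (fun j hj => key j (by simp only [Gate.wires]; omega)) hxg.1,
        node_mono hx b (fun j hj => key j (by simp only [Gate.wires]; omega)) hxg.2⟩
    | or a b =>
      rw [hC] at key
      rw [H540R2.Circuit.val, hC] at hxg ⊢
      simp only [Gate.eval, Bool.or_eq_true] at hxg ⊢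
      exact hxg.imp (node_mono hx a (fun j hj => key j (by simp only [Gate.wires]; omega)))
        (node_mono hx b (fun j hj => key j (by simp only [Gate.wires]; omega)))

open Classical in
/-- Nesting levels bound the number of alternations. -/
theorem alternates_of_nesting (C : Circuit N) (h : ℕ) (lev : ℕ → ℕ) (t : ℕ → ℕ)
    (hl : Nesting C h lev)
    (ht : ∀ l < h, ((range C.size).filter (fun g => IsNot C g ∧ lev g = l + 1)).card ≤ t l) :
    Alternates C (∏ l ∈ range h, (t l + 1) - 1) := by
  intro x hx J hJ
  have key := AL.abs_changes (X := Fin N → Bool) (τ := ℕ)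
    (T := (range C.size).filter (fun i => IsNot C i))
    (pr := fun x i => C.val x i = false) (lev := fun i => lev i - 1)
    (R := fun x x' => ∀ p, x p = true → x' p = true)
    (by
      intro x y hxy l hsame i hi hil hxi
      have hiN := (Finset.mem_filter.mp hi).2
      obtain ⟨hlt, a, ha⟩ := hiN
      have hpos := (hl.2 i ⟨hlt, a, ha⟩).1
      have h2 : ∀ j, IsNot C j → lev j ≤ l → C.val x j = C.val y j := by
        intro j hj hjl
        have h3 := (hl.2 j hj).1
        have h4 := hsame j (Finset.mem_filter.mpr ⟨mem_range.2 hj.1, hj⟩) (by omega)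
        cases h5 : C.val x j <;> cases h6 : C.val y j
        · rfl
        · rw [h4.mp h5] at h6; exact absurd h6 (by simp)
        · rw [h4.mpr h6] at h5; exact absurd h5 (by simp)
        · rfl
      show C.val y i = false
      have hxi' : C.val x i = false := hxi
      rw [H540R2.Circuit.val, ha] at hxi' ⊢
      simp only [Gate.eval, Bool.not_eq_false'] at hxi' ⊢
      refine node_mono hxy a (fun j hj hj2 => ?_) hxi'
      have hj' : (C.gate i).wires j ≠ 0 := by rw [ha]; exact hj
      have h1 := C.gate_lt i hlt j hj'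
      simp only [h1, dite_true] at hj2 ⊢
      have h5 := (hl.2 i ⟨hlt, a, ha⟩).2 j hj'
      exact mono_lev hl hxy h2 j (h1.trans hlt) (by omega) hj2)
    (h := h) (fun i hi => by
      have h0 := (Finset.mem_filter.mp hi).2
      have h1 := (hl.2 i h0).1
      have h2 := (hl.1 i h0.1).1
      show lev i - 1 < h
      omega)
    x hx J (fun i hi => by
      obtain ⟨g, hg, hne⟩ := hJ i hi
      refine ⟨g, Finset.mem_filter.mpr ⟨mem_range.2 hg.1, hg⟩, ?_⟩
      show ¬ (C.val (x i) g = false ↔ C.val (x (i + 1)) g = false)
      intro h1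
      apply hne
      cases h5 : C.val (x i) g <;> cases h6 : C.val (x (i + 1)) g
      · rfl
      · rw [h1.mp h5] at h6; exact absurd h6 (by simp)
      · rw [h1.mpr h6] at h5; exact absurd h5 (by simp)
      · rfl)
  have h2 : ∏ l ∈ range h,
      ((((range C.size).filter (fun i => IsNot C i)).filter (fun i => lev i - 1 = l)).card + 1) ≤
      ∏ l ∈ range h, (t l + 1) := by
    refine Finset.prod_le_prod' fun l hl' => Nat.succ_le_succ ?_
    refine le_trans (Finset.card_le_card ?_) (ht l (Finset.mem_range.mp hl'))
    intro i hi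
    obtain ⟨h3, h4⟩ := Finset.mem_filter.mp hi
    obtain ⟨h5', h5⟩ := Finset.mem_filter.mp h3
    have h6 := (hl.2 i h5).1
    exact Finset.mem_filter.mpr ⟨h5', h5, by omega⟩
  have h3 := key.trans h2
  omega

open Classical in
lemma nots_eq (C : Circuit N) : C.nots = ((range C.size).filter (fun i => IsNot C i)).card := by
  unfold H540R2.Circuit.nots
  congr 1
  ext i
  rw [Finset.mem_filter, Finset.mem_filter, Finset.mem_range]
  constructor
  · rintro ⟨h1, h2⟩
    refine ⟨h1, h1, ?_⟩
    cases hC : C.gate i with
    | not a => exact ⟨a, rfl⟩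
    | and a b => rw [hC] at h2; exact absurd h2 (by simp [Gate.isNot])
    | or a b => rw [hC] at h2; exact absurd h2 (by simp [Gate.isNot])
  · rintro ⟨h1, _, a, ha⟩
    exact ⟨h1, by rw [ha]; rfl⟩

open Classical in
/-- Every circuit has less than `2 ^ nots` alternations. -/
theorem alternates_pow (C : Circuit N) : Alternates C (2 ^ C.nots - 1) := by
  set lev : ℕ → ℕ := fun i => ((range C.size).filter (fun j => IsNot C j ∧ j ≤ i)).card with hlev
  have hmono : ∀ a i : ℕ, a ≤ i → lev a ≤ lev i := by
    intro a i hai
    apply Finset.card_le_card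
    intro j hj
    obtain ⟨h0, h1, h2⟩ := Finset.mem_filter.mp hj
    exact Finset.mem_filter.mpr ⟨h0, h1, h2.trans hai⟩
  have hlt : ∀ a i : ℕ, a < i → IsNot C i → lev a < lev i := by
    intro a i hai hi
    apply Finset.card_lt_card
    rw [Finset.ssubset_iff_of_subset]
    · exact ⟨i, Finset.mem_filter.mpr ⟨mem_range.2 hi.1, hi, le_rfl⟩, fun h =>
        absurd (Finset.mem_filter.mp h).2.2 hai.not_ge⟩
    · intro j hj
      obtain ⟨h0, h1, h2⟩ := Finset.mem_filter.mp hj
      exact Finset.mem_filter.mpr ⟨h0, h1, h2.trans hai.le⟩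
  have hl : Nesting C C.nots lev := by
    refine ⟨fun g hg => ⟨?_, fun j hj => hmono j g (C.gate_lt g hg j hj).le⟩,
      fun g hg => ⟨?_, fun j hj => hlt j g (C.gate_lt g hg.1 j hj) hg⟩⟩
    · rw [nots_eq]
      apply Finset.card_le_card
      intro j hj
      obtain ⟨h0, h1, _⟩ := Finset.mem_filter.mp hj
      exact Finset.mem_filter.mpr ⟨h0, h1⟩
    · exact Finset.card_pos.2 ⟨g, Finset.mem_filter.mpr ⟨mem_range.2 hg.1, hg, le_rfl⟩⟩
  have key := alternates_of_nesting C C.nots lev (fun _ => 1) hl (by
    intro l _
    rw [Finset.card_le_one]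
    intro i hi j hj
    obtain ⟨_, h1, h2⟩ := Finset.mem_filter.mp hi
    obtain ⟨_, h3, h4⟩ := Finset.mem_filter.mp hj
    rcases lt_trichotomy i j with h | h | h
    · have := hlt i j h h3
      omega
    · exact h
    · have := hlt j i h h1
      omega)
  simpa using key

end Pool.Agent.W2helper22.CU
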