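import Pool.Agent.W2helper22.CU.Pc

/-!
# The core lemma: from the three combinatorial pieces
-/

set_option autoImplicit false

namespace Pool.Agent.W2helper22.CU

open Filter Finset

lemma ev_rpow' {s : ℝ} (hs : 0 < s) (A : ℝ) : ∀ᶠ N : ℕ in atTop, A ≤ (N : ℝ) ^ s :=
  ((tendsto_rpow_atTop hs).comp tendsto_natCast_atTop_atTop).eventually (eventually_ge_atTop A)

theorem core (hR : P_REG) (hG : P_GOOD) (hY : P_GREEDY) : P_CORE := by
  classical
  intro c ε hc hc1 hε hε1 K k hk hkK
  have hk1 : (1 : ℝ) ≤ k := by exact_mod_cast hk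
  have hK0 : (0 : ℝ) < K := by
    by_contra hcon
    have h0 : (K : ℝ) = 0 := le_antisymm (not_lt.1 hcon) (Nat.cast_nonneg _)
    rw [h0] at hkK
    nlinarith
  have hKn : 0 < K := by exact_mod_cast hK0
  -- the parameters
  obtain ⟨q, hq⟩ : ∃ q : ℕ, q = ⌈4 / c⌉₊ := ⟨_, rfl⟩
  have hq4 : 4 / c ≤ (q : ℝ) := by rw [hq]; exact Nat.le_ceil _
  have hq4' : (4 : ℝ) ≤ q := by
    refine le_trans ?_ hq4
    rw [le_div_iff₀ hc]
    nlinarith
  obtain ⟨M, hM⟩ : ∃ M : ℕ, M = 2 ^ K * q := ⟨_, rfl⟩
  have hqn : 4 ≤ q := by exact_mod_cast hq4'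
  have hM2 : 2 ≤ M := by
    rw [hM]
    have : 1 ≤ 2 ^ K := Nat.one_le_two_pow
    nlinarith
  have hMr : (1 : ℝ) ≤ M := by
    have : (2 : ℝ) ≤ M := by exact_mod_cast hM2
    linarith
  have hM0 : (0 : ℝ) < M := by linarith
  set η : ℝ := ε * c / 256 with hη
  have hη0 : 0 < η := by positivity
  set ζ : ℝ := ε * c / 64 with hζ
  have hζ0 : 0 < ζ := by positivity
  filter_upwards [ev_rpow' hη0 (4 ^ ((K + 1) * (M - 1)) + 1),
    ev_rpow' (s := ε * c / 128) (by positivity) (2 * M ^ 2),
    ev_rpow' (s := c / 4 * K) (by positivity) ((K : ℝ) ^ K),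
    ev_rpow' (s := c / 32) (by positivity) (2 * M),
    ev_rpow' (s := ε * k) (by positivity) (2 * (M : ℝ) ^ (k + 1)),
    eventually_ge_atTop 2] with N h1 h2 h3 h4 h5 hN2
  intro S hS
  have hNr : (2 : ℝ) ≤ N := by exact_mod_cast hN2
  have hN0 : (0 : ℝ) < N := by linarith
  have hN1 : (1 : ℝ) ≤ N := by linarith
  set L : ℝ := Real.log N with hL
  have hL0 : 0 < L := Real.log_pos (by linarith)
  have hKK : (0 : ℝ) < (K : ℝ) ^ K := by positivity
  have hS0 : (0 : ℝ) < S.card := by
    have : 0 < (N : ℝ) ^ (c * K) := by positivity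
    by_contra hcon
    have h0 : (S.card : ℝ) = 0 := le_antisymm (not_lt.1 hcon) (Nat.cast_nonneg _)
    rw [h0] at hS
    linarith
  have hSne : S.Nonempty := by
    rw [← Finset.card_pos]
    exact_mod_cast hS0
  obtain ⟨S', hS'S, hS'ne, hi, hii, hiii⟩ := hR K N S hSne M hM2
  have hs0 : (0 : ℝ) < S'.card := by
    have := Finset.card_pos.2 hS'ne
    exact_mod_cast this
  set β : ℝ := (N : ℝ) ^ η with hβ
  have hβ1 : 1 ≤ β := by
    rw [hβ]
    exact Real.one_le_rpow hN1 hη0.le
  have hβ0 : 0 < β := by linarith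
  -- the bad sets are small
  have hbad : ∀ J : Finset (Fin K), 4 ^ (K + 1) *
      (S'.filter (fun x => β * S'.card ≤ pc S' J * (fib S' J x).card)).card ≤ S'.card := by
    intro J
    have h6 := hiii J β hβ1
    by_contra hcon
    rw [not_le] at hcon
    set b := (S'.filter (fun x => β * S'.card ≤ pc S' J * (fib S' J x).card)).card with hb
    have h7 : (S'.card : ℝ) ≤ 4 ^ (K + 1) * (b : ℝ) := by
      have : S'.card ≤ 4 ^ (K + 1) * b := hcon.le
      exact_mod_cast this
    have hb0 : 0 < (b : ℝ) := by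
      by_contra h0
      have h0' : (b : ℝ) = 0 := le_antisymm (not_lt.1 h0) (Nat.cast_nonneg _)
      rw [h0'] at h7
      linarith
    have h8 : (S'.card : ℝ) ^ (M - 1) ≤ (4 ^ (K + 1) * (b : ℝ)) ^ (M - 1) :=
      pow_le_pow_left₀ hs0.le h7 _
    rw [mul_pow, ← pow_mul] at h8
    have h9 : (b : ℝ) ^ (M - 1) * β ≤ (4 : ℝ) ^ ((K + 1) * (M - 1)) * (b : ℝ) ^ (M - 1) :=
      h6.trans h8
    have hbp : 0 < (b : ℝ) ^ (M - 1) := pow_pos hb0 _
    have h10 : β ≤ (4 : ℝ) ^ ((K + 1) * (M - 1)) := by
      rw [mul_comm] at h9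
      exact le_of_mul_le_mul_right h9 hbp
    linarith
  obtain ⟨x, hx, hgood⟩ := hG K N S' hS'ne M (by omega) β hβ1 hii hbad
  -- the set function
  have hpcr : ∀ J : Finset (Fin K), (0 : ℝ) < pc S' J := fun J => by
    have := pc_pos hS'ne J
    exact_mod_cast this
  set h : Finset (Fin K) → ℝ := fun J => Real.log (pc S' J) / L with hh
  have hpow : ∀ J, (pc S' J : ℝ) = (N : ℝ) ^ h J := by
    intro J
    have h6 : L * h J = Real.log (pc S' J) := by
      rw [hh]
      field_simp
    rw [Real.rpow_def_of_pos hN0, ← hL, h6, Real.exp_log (hpcr J)]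
  have hle : ∀ J J' : Finset (Fin K), ∀ t : ℝ,
      (pc S' J : ℝ) ≤ (N : ℝ) ^ t * pc S' J' → h J ≤ t + h J' := by
    intro J J' t hJ
    rw [hpow J, hpow J', ← Real.rpow_add hN0] at hJ
    exact (Real.rpow_le_rpow_left_iff (by linarith)).1 hJ
  have hAS : ∀ J J' : Finset (Fin K), J ⊆ J' → ∀ i,
      h (insert i J') - h J' ≤ h (insert i J) - h J + ζ := by
    intro J J' hJ i
    have h6 := (hgood J' (insert i J') (Finset.subset_insert _ _)).2
    have h7 := (hgood J (insert i J) (Finset.subset_insert _ _)).1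
    have h8 : (pc (fib S' J' x) (insert i J') : ℝ) ≤ pc (fib S' J x) (insert i J) := by
      exact_mod_cast pc_fib_insert_le S' hJ i x
    have h9 : 2 * (M : ℝ) ^ 2 * β ^ 2 ≤ (N : ℝ) ^ ζ := by
      have h10 : β ^ 2 = (N : ℝ) ^ (ε * c / 128) := by
        rw [hβ, ← Real.rpow_natCast, ← Real.rpow_mul hN0.le]
        congr 1
        rw [hη]
        push_cast
        ring
      have h11 : (N : ℝ) ^ ζ = (N : ℝ) ^ (ε * c / 128) * (N : ℝ) ^ (ε * c / 128) := by
        rw [← Real.rpow_add hN0]
        congr 1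
        rw [hζ]
        ring
      rw [h10, h11]
      exact mul_le_mul_of_nonneg_right h2 (by positivity)
    -- multiply the inequalities
    have h12 : (pc S' (insert i J') : ℝ) * pc S' J ≤
        (N : ℝ) ^ ζ * (pc S' J' * pc S' (insert i J)) := by
      calc (pc S' (insert i J') : ℝ) * pc S' J
          ≤ (2 * M * β * pc S' J' * pc (fib S' J' x) (insert i J')) * pc S' J :=
            mul_le_mul_of_nonneg_right h6 (hpcr J).le
        _ ≤ (2 * M * β * pc S' J' * pc (fib S' J x) (insert i J)) * pc S' J := by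
            apply mul_le_mul_of_nonneg_right _ (hpcr J).le
            exact mul_le_mul_of_nonneg_left h8 (by positivity)
        _ = 2 * M * β * pc S' J' * (pc (fib S' J x) (insert i J) * pc S' J) := by ring
        _ ≤ 2 * M * β * pc S' J' * (β * M * pc S' (insert i J)) :=
            mul_le_mul_of_nonneg_left h7 (by positivity)
        _ = (2 * (M : ℝ) ^ 2 * β ^ 2) * (pc S' J' * pc S' (insert i J)) := by ring
        _ ≤ (N : ℝ) ^ ζ * (pc S' J' * pc S' (insert i J)) :=
            mul_le_mul_of_nonneg_right h9 (by positivity)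
    rw [hpow (insert i J'), hpow J, hpow J', hpow (insert i J), ← Real.rpow_add hN0,
      ← Real.rpow_add hN0, ← Real.rpow_add hN0] at h12
    have := (Real.rpow_le_rpow_left_iff (by linarith)).1 h12
    linarith
  have huniv : c * K / 2 ≤ h Finset.univ := by
    have h6 : pc S' Finset.univ = S'.card := pc_univ S'
    have h7 : L * h Finset.univ = Real.log S'.card := by
      rw [hh]
      simp only
      rw [h6]
      field_simp
    have h8 : (M : ℝ) * Real.log S.card ≤ M * Real.log S'.card + K * 2 ^ K * L := by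
      have h9 := Real.log_le_log (pow_pos hS0 M) hi
      rw [Real.log_mul (pow_pos hs0 M).ne' (pow_pos hN0 _).ne', Real.log_pow, Real.log_pow,
        Real.log_pow] at h9
      rw [← hL] at h9
      push_cast at h9
      linarith
    have h9 : c * K * L ≤ Real.log ((K : ℝ) ^ K) + Real.log S.card := by
      have h10 := Real.log_le_log (by positivity) hS
      rw [Real.log_rpow hN0, Real.log_mul hKK.ne' hS0.ne'] at h10
      exact h10
    have h10 : Real.log ((K : ℝ) ^ K) ≤ c / 4 * K * L := by
      have h11 := Real.log_le_log hKK h3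
      rw [Real.log_rpow hN0] at h11
      exact h11
    have hMq : (M : ℝ) = 2 ^ K * q := by
      rw [hM]
      push_cast
      ring
    have h11 : (2 : ℝ) ^ K * K * L ≤ M * (c / 4 * K * L) := by
      rw [hMq]
      have h12 : 1 ≤ (q : ℝ) * (c / 4) := by
        rw [div_le_iff₀ hc] at hq4
        linarith
      have h13 : (0 : ℝ) ≤ 2 ^ K * K * L := by positivity
      calc (2 : ℝ) ^ K * K * L = (2 ^ K * K * L) * 1 := by ring
        _ ≤ (2 ^ K * K * L) * (q * (c / 4)) := mul_le_mul_of_nonneg_left h12 h13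
        _ = _ := by ring
    have h12 : Real.log S.card ≤ Real.log S'.card + c / 4 * K * L := by
      have : (M : ℝ) * Real.log S.card ≤ M * (Real.log S'.card + c / 4 * K * L) := by
        have h13 : (K : ℝ) * 2 ^ K * L = 2 ^ K * K * L := by ring
        rw [h13] at h8
        linarith
      exact le_of_mul_le_mul_left this hM0
    have h13 : c * K * L ≤ L * h Finset.univ + c / 2 * K * L := by
      rw [h7]
      linarith
    have h14 : L * (c * K / 2) ≤ L * h Finset.univ := by linarith
    exact le_of_mul_le_mul_left h14 hL0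
  obtain ⟨J, W, hJW, hW, hgain, hsum⟩ := hY K k h c ε ζ hc hc1 hε hε1 hζ0.le
    (by rw [hζ]; nlinarith [mul_pos hε hc]) hk hkK
    (by rw [hh]; simp only; rw [pc_empty hS'ne]; simp)
    (fun J i => by
      have := hle J (insert i J) 0 (by
        rw [Real.rpow_zero, one_mul]
        exact_mod_cast pc_mono S' (Finset.subset_insert i J))
      linarith)
    (fun J i => by
      have := hle (insert i J) J 1 (by
        rw [Real.rpow_one]
        exact_mod_cast pc_insert_le S' J i)
      linarith) hAS huniv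
  refine ⟨J, W, x, fun i => (fib S' J x).image (fun y => y i), hJW, hW, ?_, ?_, ?_⟩
  · -- the sizes
    intro i
    have h6 := (hgood J (insert i.1 J) (Finset.subset_insert _ _)).2
    rw [pc_fib_insert] at h6
    have h7 := hgain i.1 i.2
    have h8 : (N : ℝ) ^ (c / 8) * pc S' J ≤ pc S' (insert i.1 J) := by
      rw [hpow J, hpow (insert i.1 J), ← Real.rpow_add hN0]
      exact Real.rpow_le_rpow_of_exponent_le hN1 (by linarith)
    set B : ℝ := (((fib S' J x).image (fun y => y i.1)).card : ℝ) with hB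
    have h9 : (N : ℝ) ^ (c / 8) ≤ 2 * M * β * B := by
      have : (N : ℝ) ^ (c / 8) * pc S' J ≤ (2 * M * β * B) * pc S' J := by
        calc _ ≤ (pc S' (insert i.1 J) : ℝ) := h8
          _ ≤ 2 * M * β * pc S' J * B := h6
          _ = _ := by ring
      exact le_of_mul_le_mul_right this (hpcr J)
    have h10 : 2 * (M : ℝ) * β * (N : ℝ) ^ (c / 16) ≤ (N : ℝ) ^ (c / 8) := by
      have h11 : (N : ℝ) ^ (c / 8) = (N : ℝ) ^ (c / 32) * (N : ℝ) ^ (c / 32) *
          (N : ℝ) ^ (c / 16) := by
        rw [← Real.rpow_add hN0, ← Real.rpow_add hN0]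
        congr 1
        ring
      rw [h11]
      apply mul_le_mul_of_nonneg_right _ (by positivity)
      apply mul_le_mul h4 _ hβ0.le (by positivity)
      rw [hβ]
      apply Real.rpow_le_rpow_of_exponent_le hN1
      rw [hη]
      nlinarith
    have h11 : (2 * (M : ℝ) * β) * (N : ℝ) ^ (c / 16) ≤ (2 * (M : ℝ) * β) * B := h10.trans h9
    exact le_of_mul_le_mul_left h11 (by positivity)
  · intro i b hb
    obtain ⟨z, hz, rfl⟩ := Finset.mem_image.1 hb
    exact ⟨z, hS'S (mem_fib.1 hz).1, rfl⟩
  · -- the density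
    set B : W → Finset (Fin N) := fun i => (fib S' J x).image (fun y => y i) with hB
    set T := (Fintype.piFinset B).filter (fun y => ∃ z ∈ S, (∀ i ∈ J, z i = x i) ∧
        ∀ i : W, z i = y i) with hT
    have h6 : (pc (fib S' J x) (J ∪ W) : ℝ) ≤ T.card := by
      have : pc (fib S' J x) (J ∪ W) ≤ T.card := by
        apply pc_fib_union_le
        intro y hy
        rw [hT, Finset.mem_filter, Fintype.mem_piFinset]
        refine ⟨fun i => Finset.mem_image_of_mem _ hy, y, hS'S (mem_fib.1 hy).1,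
          (mem_fib.1 hy).2, fun i => rfl⟩
      exact_mod_cast this
    have h7 := (hgood J (J ∪ W) Finset.subset_union_left).2
    have h8 : ∀ i : W, ((B i).card : ℝ) ≤ β * M * (N : ℝ) ^ (h (insert i.1 J) - h J) := by
      intro i
      have h9 := (hgood J (insert i.1 J) (Finset.subset_insert _ _)).1
      rw [pc_fib_insert] at h9
      have h10 : (pc S' (insert i.1 J) : ℝ) =
          (N : ℝ) ^ (h (insert i.1 J) - h J) * pc S' J := by
        rw [hpow J, hpow (insert i.1 J), ← Real.rpow_add hN0]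
        congr 1
        ring
      rw [h10] at h9
      have h11 : ((B i).card : ℝ) * pc S' J ≤
          (β * M * (N : ℝ) ^ (h (insert i.1 J) - h J)) * pc S' J := by
        calc _ ≤ β * M * ((N : ℝ) ^ (h (insert i.1 J) - h J) * pc S' J) := h9
          _ = _ := by ring
      exact le_of_mul_le_mul_right h11 (hpcr J)
    have h9 : ∏ i, ((B i).card : ℝ) ≤
        (β * M) ^ k * (N : ℝ) ^ (∑ i ∈ W, (h (insert i J) - h J)) := by
      calc ∏ i, ((B i).card : ℝ) ≤ ∏ i : W, (β * M * (N : ℝ) ^ (h (insert i.1 J) - h J)) :=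
            Finset.prod_le_prod (fun i _ => Nat.cast_nonneg _) (fun i _ => h8 i)
        _ = (β * M) ^ k * ∏ i : W, (N : ℝ) ^ (h (insert i.1 J) - h J) := by
            rw [Finset.prod_mul_distrib, Finset.prod_const, Finset.card_univ,
              Fintype.card_coe, hW]
        _ = (β * M) ^ k * (N : ℝ) ^ (∑ i : W, (h (insert i.1 J) - h J)) := by
            rw [← Real.rpow_sum_of_pos hN0]
        _ = _ := by
            congr 2
            exact Finset.sum_coe_sort W (fun i => h (insert i J) - h J)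
    set G : ℝ := ∑ i ∈ W, (h (insert i J) - h J) with hG'
    have h10 : (N : ℝ) ^ (G - ε * k) ≤ 2 * M * β * T.card := by
      have h11 : (N : ℝ) ^ (G - ε * k) * pc S' J ≤ (2 * M * β * T.card) * pc S' J := by
        calc (N : ℝ) ^ (G - ε * k) * pc S' J ≤ (pc S' (J ∪ W) : ℝ) := by
              rw [hpow J, hpow (J ∪ W), ← Real.rpow_add hN0]
              exact Real.rpow_le_rpow_of_exponent_le hN1 (by linarith)
          _ ≤ 2 * M * β * pc S' J * pc (fib S' J x) (J ∪ W) := h7
          _ ≤ 2 * M * β * pc S' J * T.card := mul_le_mul_of_nonneg_left h6 (by positivity)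
          _ = _ := by ring
      exact le_of_mul_le_mul_right h11 (hpcr J)
    have h11 : 2 * (M : ℝ) * β * (β * M) ^ k ≤ (N : ℝ) ^ (2 * ε * k) := by
      have h12 : β ^ (k + 1) ≤ (N : ℝ) ^ (ε * k) := by
        rw [hβ, ← Real.rpow_natCast, ← Real.rpow_mul hN0.le]
        apply Real.rpow_le_rpow_of_exponent_le hN1
        rw [hη]
        push_cast
        have h13 : (k : ℝ) + 1 ≤ 2 * k := by linarith
        have h14 : ε * c / 256 ≤ ε / 256 := by
          have := mul_le_mul_of_nonneg_left hc1 hε.le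
          linarith
        calc ε * c / 256 * ((k : ℝ) + 1) ≤ ε / 256 * (2 * k) :=
              mul_le_mul h14 h13 (by positivity) (by positivity)
          _ ≤ ε * k := by
              have : 0 < ε * k := by positivity
              linarith
      calc 2 * (M : ℝ) * β * (β * M) ^ k = (2 * (M : ℝ) ^ (k + 1)) * β ^ (k + 1) := by
            rw [mul_pow]
            ring
        _ ≤ (N : ℝ) ^ (ε * k) * (N : ℝ) ^ (ε * k) :=
            mul_le_mul h5 h12 (by positivity) (by positivity)
        _ = (N : ℝ) ^ (2 * ε * k) := by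
            rw [← Real.rpow_add hN0]
            congr 1
            ring
    -- the final computation
    have h12 : (2 * (M : ℝ) * β) * ((N : ℝ) ^ (-(3 * ε * k)) * ∏ i, ((B i).card : ℝ)) ≤
        (2 * (M : ℝ) * β) * T.card := by
      calc (2 * (M : ℝ) * β) * ((N : ℝ) ^ (-(3 * ε * k)) * ∏ i, ((B i).card : ℝ))
          ≤ (2 * (M : ℝ) * β) * ((N : ℝ) ^ (-(3 * ε * k)) * ((β * M) ^ k * (N : ℝ) ^ G)) := by
            apply mul_le_mul_of_nonneg_left _ (by positivity)
            exact mul_le_mul_of_nonneg_left h9 (by positivity)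
        _ = (2 * (M : ℝ) * β * (β * M) ^ k) * ((N : ℝ) ^ (-(3 * ε * k)) * (N : ℝ) ^ G) := by
            ring
        _ ≤ (N : ℝ) ^ (2 * ε * k) * ((N : ℝ) ^ (-(3 * ε * k)) * (N : ℝ) ^ G) :=
            mul_le_mul_of_nonneg_right h11 (by positivity)
        _ = (N : ℝ) ^ (G - ε * k) := by
            rw [← Real.rpow_add hN0, ← Real.rpow_add hN0]
            congr 1
            ring
        _ ≤ 2 * M * β * T.card := h10
    exact le_of_mul_le_mul_left h12 (by positivity)

end Pool.Agent.W2helper22.CU
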