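import Pool.Agent.W2helper22.CU.Stmts3

/-!
# Monotone programs on every host, with errors on the colourable graphs
-/

set_option autoImplicit false

namespace Pool.Agent.W2helper22.CU

open Finset Pool.Agent.H540R2 Pool.Agent.W2helper86.KQ Pool.Agent.H520R2 Pool.Agent.H520R2.NM

theorem mainR (hA : P_ABSM) (hC : P_COL) (hS : P_CLOS) : P_MAINR := by
  classical
  intro n k p sz H g hk hp hM hg hposg hnegg hnum
  set κ := k - 1 with hκ
  have hκ1 : 1 ≤ κ := by omega
  obtain ⟨hcol1, -⟩ := hC n κ hκ1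
  simp only [card_filter_ncard] at hcol1
  have hqk : (0 : ℝ) < (κ : ℝ) ^ n := by positivity
  set M := cliques H k with hMdef
  set D : ℝ := (1 - qq κ) ^ p * (κ : ℝ) ^ n with hD
  have hqq1 : qq κ ≤ 1 := by
    unfold qq
    rw [div_le_one (by positivity)]
    exact_mod_cast Nat.factorial_le_pow κ
  have hD0 : 0 ≤ D := by
    rw [hD]
    have : 0 ≤ 1 - qq κ := by linarith
    positivity
  obtain ⟨hcl1, hcl2⟩ := hS n κ p (cc H k) D hκ1 hp hD0
  simp only [card_filter_ncard] at hcl1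
  have hmin := hcl2 (cc_card hk) cc_down le_rfl
  set R : ℕ := p ^ κ * κ.factorial with hR
  have hR1 : 1 ≤ R := by
    rw [hR]
    have h1 : 0 < p ^ κ := pow_pos (by omega) _
    have h2 := Nat.factorial_pos κ
    exact Nat.mul_pos h1 h2
  have hR1r : (1 : ℝ) ≤ R := by exact_mod_cast hR1
  have hempty : (∅ : Finset (Fin n)) ∈ cc H k := by
    rw [mem_cc]
    unfold dg
    rw [Finset.filter_true_of_mem (fun s _ => Finset.empty_subset s), card_cl]
    exact hM
  -- the tests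
  have hposc : ∀ s : {s // s ∈ cl H k},
      g (bits (fun u v => u ∈ s.1 ∧ v ∈ s.1)) = true := fun s => hposg s.1 (mem_cl.1 s.2)
  have hb0 : (0 : ℝ) ≤ (cc H k).card * D := by positivity
  have hR2 : (1 : ℝ) ≤ (R : ℝ) ^ 2 := one_le_pow₀ hR1r
  have hpos_empty : ∀ (F : Set {s // s ∈ cl H k}), (∀ s, s ∉ F) →
      ((F.ncard : ℕ) : ℝ) ≤ (R : ℝ) ^ 2 := by
    intro F hF
    rw [Set.eq_empty_of_forall_notMem hF, Set.ncard_empty, Nat.cast_zero]
    positivity
  have hdg : ∀ X : Finset (Fin n), {s : {s // s ∈ cl H k} | X ⊆ s.1}.ncard ≤ dg H k X := by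
    intro X
    rw [← card_filter_ncard]
    unfold dg
    apply Finset.card_le_card_of_injOn (fun s => s.1)
    · intro s hs
      rw [Finset.mem_coe, Finset.mem_filter] at hs
      rw [Finset.mem_coe, Finset.mem_filter]
      exact ⟨s.2, hs.2⟩
    · intro s _ t _ hst
      exact Subtype.ext hst
  -- the application of the method of approximations
  refine Exists.elim (hA _ sz g hg {A : Finset (Finset (Fin n)) // Closed (κ := κ) (cc H k) D A}
    {s // s ∈ cl H k} (Fin n → Fin κ)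
    (fun s => bits (fun u v => u ∈ s.1 ∧ v ∈ s.1))
    (fun χ => bits (fun u v => H.Adj u v ∧ χ u ≠ χ v))
    (fun A s => ∃ X ∈ A.1, X ⊆ s.1)
    (fun A χ => ∃ X ∈ A.1, Set.InjOn χ (X : Set (Fin n)))
    ((R : ℝ) ^ 2) ((cc H k).card * D) (by positivity) hb0 ?_ ?_ ?_ ?_ ?_) ?_
  rotate_left 5
  · -- the conclusion
    rintro ⟨A, hAcl⟩ ⟨hApos, hAneg⟩
    simp only at hApos hAneg
    by_cases hAe : A = ∅
    · subst hAe
      have h1 : {s : {s // s ∈ cl H k} |
          g (bits (fun u v => u ∈ s.1 ∧ v ∈ s.1)) = true ∧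
            ¬ ∃ X ∈ (∅ : Finset (Finset (Fin n))), X ⊆ s.1} = Set.univ := by
        apply Set.eq_univ_of_forall
        intro s
        refine ⟨hposc s, ?_⟩
        rintro ⟨X, hX, -⟩
        exact absurd hX (Finset.notMem_empty _)
      rw [h1, Set.ncard_univ, Nat.card_eq_fintype_card, Fintype.card_coe, card_cl] at hApos
      exact_mod_cast hApos
    · obtain ⟨X, hX⟩ := Finset.nonempty_iff_ne_empty.2 hAe
      by_cases hsM : sz ≤ M
      · exfalso
        have h1 : qq κ * (κ : ℝ) ^ n ≤ (3 * sz + 1) * ((cc H k).card * D) +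
            qq κ / 2 * (κ : ℝ) ^ n := by
          refine le_trans (hcol1 X (cc_card hk X (hAcl.1 hX))) ?_
          have h6 : {χ : Fin n → Fin κ | Set.InjOn χ (X : Set (Fin n))} ⊆
              {χ | (∃ X ∈ A, Set.InjOn χ (X : Set (Fin n))) ∧
                g (bits (fun u v => H.Adj u v ∧ χ u ≠ χ v)) = false} ∪
              {χ | g (bits (fun u v => H.Adj u v ∧ χ u ≠ χ v)) = true} := by
            intro χ hχ
            by_cases hgχ : g (bits (fun u v => H.Adj u v ∧ χ u ≠ χ v)) = true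
            · exact Or.inr hgχ
            · exact Or.inl ⟨⟨X, hX, hχ⟩, by simpa using hgχ⟩
          have h7 := Set.ncard_le_ncard h6 (Set.toFinite _)
          have h8 := h7.trans (Set.ncard_union_le _ _)
          have h9 : (({χ : Fin n → Fin κ | Set.InjOn χ (X : Set (Fin n))}.ncard : ℕ) : ℝ) ≤
              (({χ : Fin n → Fin κ | (∃ X ∈ A, Set.InjOn χ (X : Set (Fin n))) ∧
                g (bits (fun u v => H.Adj u v ∧ χ u ≠ χ v)) = false}.ncard : ℕ) : ℝ) +
              (({χ : Fin n → Fin κ |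
                g (bits (fun u v => H.Adj u v ∧ χ u ≠ χ v)) = true}.ncard : ℕ) : ℝ) := by
            exact_mod_cast h8
          linarith
        have h2 : ((cc H k).card : ℝ) ≤ 2 ^ k * M := by
          exact_mod_cast card_cc H k
        have h3 : (sz : ℝ) ≤ M := by exact_mod_cast hsM
        have h4 : qq κ / 2 * (κ : ℝ) ^ n ≤
            ((1 - qq κ) ^ p * (2 ^ k * M * (3 * M + 1))) * (κ : ℝ) ^ n := by
          calc qq κ / 2 * (κ : ℝ) ^ n ≤ (3 * sz + 1) * ((cc H k).card * D) := by linarith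
            _ ≤ (3 * M + 1) * ((2 ^ k * M) * D) := by
                apply mul_le_mul (by linarith) _ (by positivity) (by positivity)
                exact mul_le_mul_of_nonneg_right h2 hD0
            _ = _ := by
                rw [hD]
                ring
        have h5 := le_of_mul_le_mul_right h4 hqk
        linarith
      · rw [not_le] at hsM
        have h1 : sz ≤ (3 * sz + 1) * R ^ 2 := by
          have h2 : 1 ≤ R ^ 2 := Nat.one_le_pow _ _ hR1
          nlinarith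
        exact hsM.le.trans h1
  · -- the input variables
    intro e
    obtain ⟨⟨⟨u, v⟩, huv⟩, rfl⟩ : ∃ w, e = pairNo n w := ⟨(pairNo n).symm e, by simp⟩
    have hval : ∀ Rl : Fin n → Fin n → Prop, bits Rl (pairNo n ⟨(u, v), huv⟩) = true ↔
        Rl u v := by
      intro Rl
      unfold bits
      rw [Equiv.symm_apply_apply]
      exact decide_eq_true_iff
    by_cases hX : ({u, v} : Finset (Fin n)) ∈ cc H k
    · obtain ⟨A', hsub, hclo, herr⟩ := hcl1 {{u, v}} (by
        intro X hX'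
        rw [Finset.mem_singleton] at hX'
        rw [hX']
        exact hX)
      refine ⟨⟨A', hclo⟩, ?_, ?_⟩
      · apply hpos_empty
        rintro s ⟨h1, h2⟩
        rw [hval] at h1
        apply h2
        refine ⟨{u, v}, hsub (Finset.mem_singleton_self _), ?_⟩
        intro w hw
        rw [Finset.mem_insert, Finset.mem_singleton] at hw
        rcases hw with rfl | rfl
        · exact h1.1
        · exact h1.2
      · refine ncard_le ?_ herr
        rintro χ ⟨hχ1, hχ2⟩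
        refine ⟨hχ1, ?_⟩
        rintro ⟨X, hX1, hX2⟩
        rw [Finset.mem_singleton] at hX1
        subst hX1
        have h1 : bits (fun u v => H.Adj u v ∧ χ u ≠ χ v) (pairNo n ⟨(u, v), huv⟩) = true := by
          rw [hval]
          constructor
          · rw [mem_cc] at hX
            unfold dg at hX
            obtain ⟨s, hs⟩ := Finset.card_pos.1 (by omega : 0 <
              ((cl H k).filter (fun s => ({u, v} : Finset (Fin n)) ⊆ s)).card)
            rw [Finset.mem_filter, mem_cl] at hs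
            exact hs.1.isClique (hs.2 (by simp)) (hs.2 (by simp)) huv.ne
          · intro h
            exact huv.ne (hX2 (by simp) (by simp) h)
        rw [h1] at hχ2
        exact absurd hχ2 (by simp)
    · obtain ⟨A', -, hclo, herr⟩ := hcl1 ∅ (Finset.empty_subset _)
      refine ⟨⟨A', hclo⟩, ?_, ?_⟩
      · refine le_trans ?_ hR2
        have h2 : ¬ 2 ≤ dg H k {u, v} := fun h => hX (mem_cc.2 h)
        have h3 := hdg {u, v}
        have h4 : {s : {s // s ∈ cl H k} |
            bits (fun u v => u ∈ s.1 ∧ v ∈ s.1) (pairNo n ⟨(u, v), huv⟩) = true ∧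
              ¬ ∃ X ∈ A', X ⊆ s.1} ⊆ {s : {s // s ∈ cl H k} | ({u, v} : Finset (Fin n)) ⊆ s.1} := by
          rintro s ⟨hs, -⟩
          rw [hval] at hs
          intro w hw
          rw [Finset.mem_insert, Finset.mem_singleton] at hw
          rcases hw with rfl | rfl
          · exact hs.1
          · exact hs.2
        refine ncard_le h4 ?_
        have h5 : {s : {s // s ∈ cl H k} | ({u, v} : Finset (Fin n)) ⊆ s.1}.ncard ≤ 1 := by omega
        exact_mod_cast h5
      · refine ncard_le ?_ herr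
        rintro χ ⟨hχ1, hχ2⟩
        refine ⟨hχ1, ?_⟩
        rintro ⟨X, hX1, -⟩
        exact absurd hX1 (Finset.notMem_empty _)
  · -- true
    obtain ⟨A', hsub, hclo, -⟩ := hcl1 {∅} (by
      intro X hX'
      rw [Finset.mem_singleton] at hX'
      rw [hX']
      exact hempty)
    exact ⟨⟨A', hclo⟩, fun s => ⟨∅, hsub (Finset.mem_singleton_self _), Finset.empty_subset _⟩⟩
  · -- false
    obtain ⟨A', -, hclo, herr⟩ := hcl1 ∅ (Finset.empty_subset _)
    refine ⟨⟨A', hclo⟩, ncard_le ?_ herr⟩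
    intro χ hχ
    refine ⟨hχ, ?_⟩
    rintro ⟨X, hX1, -⟩
    exact absurd hX1 (Finset.notMem_empty _)
  · -- AND
    rintro ⟨A₁, hA₁⟩ ⟨A₂, hA₂⟩
    obtain ⟨B₁, hB₁, hB₁c, hB₁m⟩ := hmin A₁ hA₁
    obtain ⟨B₂, hB₂, hB₂c, hB₂m⟩ := hmin A₂ hA₂
    obtain ⟨A', hsub, hclo, herr⟩ := hcl1
      (((B₁ ×ˢ B₂).image (fun z => z.1 ∪ z.2)).filter (fun X => X ∈ cc H k)) (by
        intro X hX
        exact (Finset.mem_filter.1 hX).2)
    refine ⟨⟨A', hclo⟩, ?_, ?_⟩
    · have h1 : {s : {s // s ∈ cl H k} |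
          ((∃ X ∈ A₁, X ⊆ s.1) ∧ ∃ X ∈ A₂, X ⊆ s.1) ∧ ¬ ∃ X ∈ A', X ⊆ s.1} ⊆
          ⋃ z ∈ (B₁ ×ˢ B₂).filter (fun z => z.1 ∪ z.2 ∉ cc H k),
            {s : {s // s ∈ cl H k} | z.1 ∪ z.2 ⊆ s.1} := by
        rintro s ⟨⟨⟨X₁, hX₁, hX₁s⟩, ⟨X₂, hX₂, hX₂s⟩⟩, hno⟩
        obtain ⟨Y₁, hY₁, hY₁X⟩ := hB₁m X₁ hX₁
        obtain ⟨Y₂, hY₂, hY₂X⟩ := hB₂m X₂ hX₂
        have h2 : Y₁ ∪ Y₂ ⊆ s.1 := Finset.union_subset (hY₁X.trans hX₁s) (hY₂X.trans hX₂s)
        rw [Set.mem_iUnion₂]
        refine ⟨(Y₁, Y₂), ?_, h2⟩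
        rw [Finset.mem_filter]
        refine ⟨Finset.mem_product.2 ⟨hY₁, hY₂⟩, ?_⟩
        intro h3
        apply hno
        refine ⟨Y₁ ∪ Y₂, hsub ?_, h2⟩
        rw [Finset.mem_filter]
        exact ⟨Finset.mem_image.2 ⟨(Y₁, Y₂), Finset.mem_product.2 ⟨hY₁, hY₂⟩, rfl⟩, h3⟩
      refine ncard_le h1 ?_
      have h2 : (⋃ z ∈ (B₁ ×ˢ B₂).filter (fun z => z.1 ∪ z.2 ∉ cc H k),
            {s : {s // s ∈ cl H k} | z.1 ∪ z.2 ⊆ s.1}).ncard ≤
          ∑ z ∈ (B₁ ×ˢ B₂).filter (fun z => z.1 ∪ z.2 ∉ cc H k),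
            {s : {s // s ∈ cl H k} | z.1 ∪ z.2 ⊆ s.1}.ncard :=
        Finset.set_ncard_biUnion_le _ _
      have h3 : ∑ z ∈ (B₁ ×ˢ B₂).filter (fun z => z.1 ∪ z.2 ∉ cc H k),
            {s : {s // s ∈ cl H k} | z.1 ∪ z.2 ⊆ s.1}.ncard ≤ R ^ 2 := by
        calc _ ≤ ∑ z ∈ (B₁ ×ˢ B₂).filter (fun z => z.1 ∪ z.2 ∉ cc H k), 1 := by
              apply Finset.sum_le_sum
              intro z hz
              have h4 : ¬ 2 ≤ dg H k (z.1 ∪ z.2) := fun h =>
                (Finset.mem_filter.1 hz).2 (mem_cc.2 h)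
              have h5 := hdg (z.1 ∪ z.2)
              omega
          _ = ((B₁ ×ˢ B₂).filter (fun z => z.1 ∪ z.2 ∉ cc H k)).card := by simp
          _ ≤ (B₁ ×ˢ B₂).card := Finset.card_filter_le _ _
          _ ≤ R ^ 2 := by
              rw [Finset.card_product, sq]
              exact Nat.mul_le_mul hB₁c hB₂c
      exact_mod_cast h2.trans h3
    · refine ncard_le ?_ herr
      rintro χ ⟨hχ1, hχ2⟩
      refine ⟨hχ1, ?_⟩
      rintro ⟨X, hX1, hX2⟩
      rw [Finset.mem_filter] at hX1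
      obtain ⟨z, hz, rfl⟩ := Finset.mem_image.1 hX1.1
      rw [Finset.mem_product] at hz
      apply hχ2
      refine ⟨⟨z.1, hB₁ hz.1, hX2.mono ?_⟩, ⟨z.2, hB₂ hz.2, hX2.mono ?_⟩⟩
      · exact_mod_cast Finset.subset_union_left
      · exact_mod_cast Finset.subset_union_right
  · -- OR
    rintro ⟨A₁, hA₁⟩ ⟨A₂, hA₂⟩
    obtain ⟨A', hsub, hclo, herr⟩ := hcl1 (A₁ ∪ A₂) (Finset.union_subset hA₁.1 hA₂.1)
    refine ⟨⟨A', hclo⟩, ?_, ?_⟩
    · apply hpos_empty
      rintro s ⟨h1, h2⟩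
      apply h2
      rcases h1 with ⟨X, hX, hXs⟩ | ⟨X, hX, hXs⟩
      · exact ⟨X, hsub (Finset.mem_union_left _ hX), hXs⟩
      · exact ⟨X, hsub (Finset.mem_union_right _ hX), hXs⟩
    · refine ncard_le ?_ herr
      rintro χ ⟨hχ1, hχ2⟩
      refine ⟨hχ1, ?_⟩
      rintro ⟨X, hX1, hX2⟩
      apply hχ2
      rcases Finset.mem_union.1 hX1 with h | h
      · exact Or.inl ⟨X, h, hX2⟩
      · exact Or.inr ⟨X, h, hX2⟩

end Pool.Agent.W2helper22.CU
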