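import Pool.Agent.W2helper22.CU.FewEasy
import Pool.Agent.W2helper22.CU.Core
import Pool.Agent.W2helper22.CU.MainR
import Pool.Agent.W2helper92.CU.Reg
import Pool.Agent.W2helper66.CU.Good
import Pool.Agent.W2helper75.CU.Greedy
import Pool.Agent.W2helper75.CU.Host
import Pool.Agent.W2helper59.CU.Cover
import Pool.Agent.W2helper59.CU.Transfer
import Pool.Agent.W4helper65.CU.Subst
import Pool.Agent.W2helper71.CU.General
import Pool.Agent.W2helper59.CU.Absm
import Pool.Agent.W2helper56.CU.Col
import Pool.Agent.W2helper82.CU.Part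
import Pool.Agent.W2helper39.CU.Link
import Pool.Agent.W2helper39.CU.One
import Pool.Agent.W2helper17.CU.Chain
import Pool.Agent.W2helper37.CU.Finn
import Pool.Agent.W2helper9.CU.ORS
import Pool.Agent.W2helper46.CU.Block
import Pool.Agent.W2helper46.CU.SpreadN

/-!
# Assembly of the project
-/

set_option autoImplicit false

namespace Pool.Agent.W2helper22.CU

theorem p_triv : P_TRIV := W2helper9.CU.p_triv

theorem p_transfer : P_TRANSFER :=
  W2helper59.CU.p_transfer (core W2helper92.CU.p_reg W2helper66.CU.p_good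
      W2helper75.CU.p_greedy) W2helper75.CU.p_host W2helper59.CU.p_cover
      W4helper65.CU.p_subst W2helper9.CU.p_ors

theorem p_general : P_GENERAL := W2helper71.CU.p_general p_transfer p_triv

theorem p_mainr : P_MAINR :=
  mainR W2helper59.CU.p_absm W2helper56.CU.p_col W2helper56.CU.p_clos'

theorem p_finn : P_FINN :=
  W2helper37.CU.p_finn (W2helper46.CU.p_SPREADN W2helper82.CU.p_part W2helper17.CU.p_chain
    (W2helper46.CU.p_BLOCK p_mainr)) W2helper82.CU.p_spr
    (W2helper39.CU.p_link W2helper9.CU.p_ors) W2helper39.CU.p_one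

end Pool.Agent.W2helper22.CU
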