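import Pool.Agent.W2helper22.CU.Stmts

/-!
# Few cliques: the problem is easy
-/

set_option autoImplicit false

namespace Pool.Agent.W2helper22.CU

open Filter Pool.Agent.H540R2 Pool.Agent.W2helper86.KQ

theorem few_easy (h : P_TRIV) (H : ∀ k n : ℕ, SimpleGraph (Fin n)) (hF : Few H) : Easy H := by
  obtain ⟨f, g, hg, hb⟩ := hF
  refine ⟨fun k => (k ^ 2 + 1) * f k + 1, fun k => max (g k) 0, ?_, ?_⟩
  · have h1 : Tendsto (fun k : ℕ => max (g k / k) 0) atTop (nhds (max 0 0)) :=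
      hg.max tendsto_const_nhds
    rw [max_self] at h1
    refine h1.congr' ?_
    filter_upwards [eventually_ge_atTop 1] with k hk
    have hk' : (0 : ℝ) < k := by exact_mod_cast hk
    rcases le_total (g k) 0 with h2 | h2
    · rw [max_eq_right h2, max_eq_right (div_nonpos_of_nonpos_of_nonneg h2 hk'.le), zero_div]
    · rw [max_eq_left h2, max_eq_left (div_nonneg h2 hk'.le)]
  · intro k n hk hn
    obtain ⟨C, -, hC, hD⟩ := h n k (H k n) hk
    refine ⟨C, ?_, hD⟩
    have hn1 : (1 : ℝ) ≤ n := by exact_mod_cast (by omega : 1 ≤ n)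
    have h1 : (C.size : ℝ) ≤ (k ^ 2 + 1) * cliques (H k n) k + 1 := by exact_mod_cast hC
    have h2 := hb k n hk hn
    have h3 : (n : ℝ) ^ g k ≤ (n : ℝ) ^ max (g k) 0 :=
      Real.rpow_le_rpow_of_exponent_le hn1 (le_max_left _ _)
    have h4 : (1 : ℝ) ≤ (n : ℝ) ^ max (g k) 0 :=
      Real.one_le_rpow hn1 (le_max_right _ _)
    have h5 : (0 : ℝ) ≤ f k := Nat.cast_nonneg _
    have h6 : (cliques (H k n) k : ℝ) ≤ f k * (n : ℝ) ^ max (g k) 0 :=
      h2.trans (mul_le_mul_of_nonneg_left h3 h5)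
    have h7 : ((k : ℝ) ^ 2 + 1) * cliques (H k n) k ≤
        ((k : ℝ) ^ 2 + 1) * (f k * (n : ℝ) ^ max (g k) 0) :=
      mul_le_mul_of_nonneg_left h6 (by positivity)
    push_cast
    nlinarith

end Pool.Agent.W2helper22.CU
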