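import Pool.Agent.W2helper22.CU.Stmts2

/-!
# Monotone circuits on every host: the main inequality
-/

set_option autoImplicit false

namespace Pool.Agent.W2helper22.CU

open Finset Pool.Agent.H540R2 Pool.Agent.W2helper86.KQ

/-- the input whose true bits are the pairs with the property `R` -/
noncomputable def bits {n : ℕ} (R : Fin n → Fin n → Prop) : Fin (n.choose 2) → Bool :=
  open Classical in fun e => decide (R ((pairNo n).symm e).1.1 ((pairNo n).symm e).1.2)

lemma graph_bits {n : ℕ} (R : Fin n → Fin n → Prop) (hR : ∀ u v, R u v → R v u) (u v : Fin n) :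
    (graph (bits R)).Adj u v ↔ u ≠ v ∧ R u v := by
  classical
  unfold graph
  rw [SimpleGraph.fromRel_adj]
  have key : ∀ i j : Fin n, (∃ h : i < j, bits R (pairNo n ⟨(i, j), h⟩) = true) ↔
      i < j ∧ R i j := by
    intro i j
    constructor
    · rintro ⟨h, h1⟩
      refine ⟨h, ?_⟩
      unfold bits at h1
      rw [Equiv.symm_apply_apply] at h1
      exact of_decide_eq_true h1
    · rintro ⟨h, h1⟩
      refine ⟨h, ?_⟩
      unfold bits
      rw [Equiv.symm_apply_apply]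
      exact decide_eq_true h1
  rw [key, key]
  constructor
  · rintro ⟨h, h1 | h1⟩
    · exact ⟨h, h1.2⟩
    · exact ⟨h, hR _ _ h1.2⟩
  · rintro ⟨h, h1⟩
    refine ⟨h, ?_⟩
    rcases lt_or_gt_of_ne h with h2 | h2
    · exact Or.inl ⟨h2, h1⟩
    · exact Or.inr ⟨h2, hR _ _ h1⟩

open Classical in
/-- the `k`-cliques of the host -/
noncomputable def cl {n : ℕ} (H : SimpleGraph (Fin n)) (k : ℕ) : Finset (Finset (Fin n)) :=
  univ.filter (fun s => H.IsNClique k s)

lemma card_cl {n : ℕ} (H : SimpleGraph (Fin n)) (k : ℕ) : (cl H k).card = cliques H k := by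
  classical
  unfold cliques cl
  rw [Set.ncard_eq_toFinset_card']
  congr 1
  ext s
  simp

open Classical in
/-- the number of cliques containing a set -/
noncomputable def dg {n : ℕ} (H : SimpleGraph (Fin n)) (k : ℕ) (X : Finset (Fin n)) : ℕ :=
  ((cl H k).filter (fun s => X ⊆ s)).card

open Classical in
/-- the sets contained in at least two cliques -/
noncomputable def cc {n : ℕ} (H : SimpleGraph (Fin n)) (k : ℕ) : Finset (Finset (Fin n)) :=
  univ.filter (fun X => 2 ≤ dg H k X)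

lemma mem_cc {n : ℕ} {H : SimpleGraph (Fin n)} {k : ℕ} {X : Finset (Fin n)} :
    X ∈ cc H k ↔ 2 ≤ dg H k X := by
  classical
  simp [cc]

lemma dg_anti {n : ℕ} {H : SimpleGraph (Fin n)} {k : ℕ} {X Y : Finset (Fin n)} (h : Y ⊆ X) :
    dg H k X ≤ dg H k Y := by
  classical
  unfold dg
  apply Finset.card_le_card
  intro s hs
  rw [Finset.mem_filter] at hs ⊢
  exact ⟨hs.1, h.trans hs.2⟩

lemma cc_down {n : ℕ} {H : SimpleGraph (Fin n)} {k : ℕ} :
    ∀ X ∈ cc H k, ∀ Y ⊆ X, Y ∈ cc H k := by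
  intro X hX Y hY
  rw [mem_cc] at hX ⊢
  exact hX.trans (dg_anti hY)

lemma mem_cl {n : ℕ} {H : SimpleGraph (Fin n)} {k : ℕ} {s : Finset (Fin n)} :
    s ∈ cl H k ↔ H.IsNClique k s := by
  classical
  simp [cl]

lemma cc_card {n : ℕ} {H : SimpleGraph (Fin n)} {k : ℕ} (hk : 2 ≤ k) :
    ∀ X ∈ cc H k, X.card ≤ k - 1 := by
  classical
  intro X hX
  rw [mem_cc] at hX
  unfold dg at hX
  obtain ⟨s, hs, t, ht, hst⟩ := Finset.one_lt_card.1 (by omega : 1 <
    ((cl H k).filter (fun s => X ⊆ s)).card)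
  rw [Finset.mem_filter, mem_cl] at hs ht
  by_contra hcon
  have h1 : X.card = k := by
    have h2 := Finset.card_le_card hs.2
    rw [hs.1.card_eq] at h2
    omega
  have h3 : X = s := Finset.eq_of_subset_of_card_le hs.2 (by rw [hs.1.card_eq, h1])
  have h4 : X = t := Finset.eq_of_subset_of_card_le ht.2 (by rw [ht.1.card_eq, h1])
  exact hst (h3 ▸ h4)

lemma card_cc {n : ℕ} (H : SimpleGraph (Fin n)) (k : ℕ) :
    (cc H k).card ≤ 2 ^ k * cliques H k := by
  classical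
  have h1 : cc H k ⊆ (cl H k).biUnion (fun s => s.powerset) := by
    intro X hX
    rw [mem_cc] at hX
    have h2 : 0 < ((cl H k).filter (fun s => X ⊆ s)).card := by
      unfold dg at hX
      omega
    obtain ⟨s, hs⟩ := Finset.card_pos.1 h2
    rw [Finset.mem_filter] at hs
    exact Finset.mem_biUnion.2 ⟨s, hs.1, Finset.mem_powerset.2 hs.2⟩
  calc (cc H k).card ≤ _ := Finset.card_le_card h1
    _ ≤ ∑ s ∈ cl H k, s.powerset.card := Finset.card_biUnion_le
    _ = ∑ s ∈ cl H k, 2 ^ k := by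
        apply Finset.sum_congr rfl
        intro s hs
        rw [Finset.card_powerset, (mem_cl.1 hs).card_eq]
    _ = 2 ^ k * cliques H k := by
        rw [Finset.sum_const, card_cl, smul_eq_mul, mul_comm]

lemma card_filter_ncard {α : Type*} [Fintype α] (F : α → Prop) [DecidablePred F] :
    (univ.filter F).card = {x | F x}.ncard := by
  rw [Set.ncard_eq_toFinset_card']
  congr 1
  ext x
  simp

/-- the method of approximations, with cardinalities of sets -/
theorem abs' (hA : P_ABS) {N : ℕ} (C : Circuit N) (hC : C.nots = 0)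
    (𝓛 P Q : Type) [Fintype P] [Fintype Q] (xP : P → Fin N → Bool) (xQ : Q → Fin N → Bool)
    (accP : 𝓛 → P → Prop) (accQ : 𝓛 → Q → Prop) (a b : ℝ) (ha : 0 ≤ a) (hb : 0 ≤ b)
    (h1 : ∀ i : Fin N, ∃ A, ({p | xP p i = true ∧ ¬ accP A p}.ncard : ℝ) ≤ a ∧
      ({q | accQ A q ∧ xQ q i = false}.ncard : ℝ) ≤ b)
    (h2 : ∃ A, ∀ p, accP A p)
    (h3 : ∃ A, ({q | accQ A q}.ncard : ℝ) ≤ b)
    (h4 : ∀ A B, ∃ D, ({p | (accP A p ∧ accP B p) ∧ ¬ accP D p}.ncard : ℝ) ≤ a ∧
      ({q | accQ D q ∧ ¬ (accQ A q ∧ accQ B q)}.ncard : ℝ) ≤ b)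
    (h5 : ∀ A B, ∃ D, ({p | (accP A p ∨ accP B p) ∧ ¬ accP D p}.ncard : ℝ) ≤ a ∧
      ({q | accQ D q ∧ ¬ (accQ A q ∨ accQ B q)}.ncard : ℝ) ≤ b) :
    ∃ A, ({p | C.eval (xP p) = true ∧ ¬ accP A p}.ncard : ℝ) ≤ (3 * C.size + 1) * a ∧
      ({q | accQ A q ∧ C.eval (xQ q) = false}.ncard : ℝ) ≤ (3 * C.size + 1) * b := by
  classical
  have := hA N C hC 𝓛 P Q xP xQ accP accQ a b ha hb
  simp only [card_filter_ncard] at this
  exact this h1 h2 h3 h4 h5

lemma ncard_le {α : Type*} [Finite α] {s t : Set α} (h : s ⊆ t) {a : ℝ}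
    (ha : (t.ncard : ℝ) ≤ a) : (s.ncard : ℝ) ≤ a := by
  refine le_trans ?_ ha
  exact_mod_cast Set.ncard_le_ncard h (Set.toFinite t)

theorem mainM (hA : P_ABS) (hC : P_COL) (hS : P_CLOS) : P_MAINM := by
  classical
  intro n k p H C hk hp hM hnots hsep hnum
  set κ := k - 1 with hκ
  have hκ1 : 1 ≤ κ := by omega
  obtain ⟨hcol1, -⟩ := hC n κ hκ1
  simp only [card_filter_ncard] at hcol1
  have hqk : (0 : ℝ) < (κ : ℝ) ^ n := by positivity
  set M := cliques H k with hMdef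
  set D : ℝ := (1 - qq κ) ^ p * (κ : ℝ) ^ n with hD
  have hqq1 : qq κ ≤ 1 := by
    unfold qq
    rw [div_le_one (by positivity)]
    exact_mod_cast Nat.factorial_le_pow κ
  have hD0 : 0 ≤ D := by
    rw [hD]
    have : 0 ≤ 1 - qq κ := by linarith
    positivity
  obtain ⟨hcl1, hcl2⟩ := hS n κ p (cc H k) D hκ1 hp hD0
  simp only [card_filter_ncard] at hcl1
  have hmin := hcl2 (cc_card hk) cc_down le_rfl
  set R : ℕ := p ^ κ * κ.factorial with hR
  have hR1 : 1 ≤ R := by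
    rw [hR]
    have h1 : 0 < p ^ κ := pow_pos (by omega) _
    have h2 := Nat.factorial_pos κ
    exact Nat.mul_pos h1 h2
  have hR1r : (1 : ℝ) ≤ R := by exact_mod_cast hR1
  have hempty : (∅ : Finset (Fin n)) ∈ cc H k := by
    rw [mem_cc]
    unfold dg
    rw [Finset.filter_true_of_mem (fun s _ => Finset.empty_subset s), card_cl]
    exact hM
  -- the tests
  have hposx : ∀ s : {s // s ∈ cl H k}, graph (bits (fun u v => u ∈ s.1 ∧ v ∈ s.1)) ≤ H := by
    intro s u v huv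
    rw [graph_bits _ (fun u v h => ⟨h.2, h.1⟩)] at huv
    exact (mem_cl.1 s.2).isClique huv.2.1 huv.2.2 huv.1
  have hposc : ∀ s : {s // s ∈ cl H k},
      C.eval (bits (fun u v => u ∈ s.1 ∧ v ∈ s.1)) = true := by
    intro s
    apply (hsep _ (hposx s)).1
    intro hfree
    apply hfree s.1
    refine ⟨?_, (mem_cl.1 s.2).card_eq⟩
    intro u hu v hv huv
    rw [graph_bits _ (fun u v h => ⟨h.2, h.1⟩)]
    exact ⟨huv, hu, hv⟩
  have hnegc : ∀ χ : Fin n → Fin κ,
      C.eval (bits (fun u v => H.Adj u v ∧ χ u ≠ χ v)) = false := by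
    intro χ
    have hsym : ∀ u v, (H.Adj u v ∧ χ u ≠ χ v) → (H.Adj v u ∧ χ v ≠ χ u) :=
      fun u v h => ⟨h.1.symm, h.2.symm⟩
    apply (hsep _ (fun u v huv => by
      rw [graph_bits _ hsym] at huv
      exact huv.2.1)).2
    refine ⟨SimpleGraph.Coloring.mk χ ?_⟩
    intro u v huv
    rw [graph_bits _ hsym] at huv
    exact huv.2.2
  have hb0 : (0 : ℝ) ≤ (cc H k).card * D := by positivity
  have hR2 : (1 : ℝ) ≤ (R : ℝ) ^ 2 := one_le_pow₀ hR1r
  have hpos_empty : ∀ (F : Set {s // s ∈ cl H k}), (∀ s, s ∉ F) →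
      ((F.ncard : ℕ) : ℝ) ≤ (R : ℝ) ^ 2 := by
    intro F hF
    rw [Set.eq_empty_of_forall_notMem hF, Set.ncard_empty, Nat.cast_zero]
    positivity
  have hdg : ∀ X : Finset (Fin n), {s : {s // s ∈ cl H k} | X ⊆ s.1}.ncard ≤ dg H k X := by
    intro X
    rw [← card_filter_ncard]
    unfold dg
    apply Finset.card_le_card_of_injOn (fun s => s.1)
    · intro s hs
      rw [Finset.mem_coe, Finset.mem_filter] at hs
      rw [Finset.mem_coe, Finset.mem_filter]
      exact ⟨s.2, hs.2⟩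
    · intro s _ t _ hst
      exact Subtype.ext hst
  -- the application of the method of approximations
  refine Exists.elim (abs' hA C hnots {A : Finset (Finset (Fin n)) // Closed (κ := κ) (cc H k) D A}
    {s // s ∈ cl H k} (Fin n → Fin κ)
    (fun s => bits (fun u v => u ∈ s.1 ∧ v ∈ s.1))
    (fun χ => bits (fun u v => H.Adj u v ∧ χ u ≠ χ v))
    (fun A s => ∃ X ∈ A.1, X ⊆ s.1)
    (fun A χ => ∃ X ∈ A.1, Set.InjOn χ (X : Set (Fin n)))
    ((R : ℝ) ^ 2) ((cc H k).card * D) (by positivity) hb0 ?_ ?_ ?_ ?_ ?_) ?_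
  rotate_left 5
  · -- the conclusion
    rintro ⟨A, hAcl⟩ ⟨hApos, hAneg⟩
    simp only at hApos hAneg
    by_cases hAe : A = ∅
    · subst hAe
      have h1 : {s : {s // s ∈ cl H k} |
          C.eval (bits (fun u v => u ∈ s.1 ∧ v ∈ s.1)) = true ∧
            ¬ ∃ X ∈ (∅ : Finset (Finset (Fin n))), X ⊆ s.1} = Set.univ := by
        apply Set.eq_univ_of_forall
        intro s
        refine ⟨hposc s, ?_⟩
        rintro ⟨X, hX, -⟩
        exact absurd hX (Finset.notMem_empty _)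
      rw [h1, Set.ncard_univ, Nat.card_eq_fintype_card, Fintype.card_coe, card_cl] at hApos
      exact_mod_cast hApos
    · obtain ⟨X, hX⟩ := Finset.nonempty_iff_ne_empty.2 hAe
      by_cases hsM : C.size ≤ M
      · exfalso
        have h1 : qq κ * (κ : ℝ) ^ n ≤ (3 * C.size + 1) * ((cc H k).card * D) := by
          refine le_trans (hcol1 X (cc_card hk X (hAcl.1 hX))) (ncard_le ?_ hAneg)
          intro χ hχ
          exact ⟨⟨X, hX, hχ⟩, hnegc χ⟩
        have h2 : ((cc H k).card : ℝ) ≤ 2 ^ k * M := by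
          exact_mod_cast card_cc H k
        have h3 : (C.size : ℝ) ≤ M := by exact_mod_cast hsM
        have h4 : qq κ * (κ : ℝ) ^ n ≤
            ((1 - qq κ) ^ p * (2 ^ k * M * (3 * M + 1))) * (κ : ℝ) ^ n := by
          calc qq κ * (κ : ℝ) ^ n ≤ (3 * C.size + 1) * ((cc H k).card * D) := h1
            _ ≤ (3 * M + 1) * ((2 ^ k * M) * D) := by
                apply mul_le_mul (by linarith) _ (by positivity) (by positivity)
                exact mul_le_mul_of_nonneg_right h2 hD0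
            _ = _ := by
                rw [hD]
                ring
        have h5 := le_of_mul_le_mul_right h4 hqk
        linarith
      · rw [not_le] at hsM
        have h1 : C.size ≤ (3 * C.size + 1) * R ^ 2 := by
          have h2 : 1 ≤ R ^ 2 := Nat.one_le_pow _ _ hR1
          nlinarith
        exact hsM.le.trans h1
  · -- the input variables
    intro e
    obtain ⟨⟨⟨u, v⟩, huv⟩, rfl⟩ : ∃ w, e = pairNo n w := ⟨(pairNo n).symm e, by simp⟩
    have hval : ∀ Rl : Fin n → Fin n → Prop, bits Rl (pairNo n ⟨(u, v), huv⟩) = true ↔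
        Rl u v := by
      intro Rl
      unfold bits
      rw [Equiv.symm_apply_apply]
      exact decide_eq_true_iff
    by_cases hX : ({u, v} : Finset (Fin n)) ∈ cc H k
    · obtain ⟨A', hsub, hclo, herr⟩ := hcl1 {{u, v}} (by
        intro X hX'
        rw [Finset.mem_singleton] at hX'
        rw [hX']
        exact hX)
      refine ⟨⟨A', hclo⟩, ?_, ?_⟩
      · apply hpos_empty
        rintro s ⟨h1, h2⟩
        rw [hval] at h1
        apply h2
        refine ⟨{u, v}, hsub (Finset.mem_singleton_self _), ?_⟩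
        intro w hw
        rw [Finset.mem_insert, Finset.mem_singleton] at hw
        rcases hw with rfl | rfl
        · exact h1.1
        · exact h1.2
      · refine ncard_le ?_ herr
        rintro χ ⟨hχ1, hχ2⟩
        refine ⟨hχ1, ?_⟩
        rintro ⟨X, hX1, hX2⟩
        rw [Finset.mem_singleton] at hX1
        subst hX1
        have h1 : bits (fun u v => H.Adj u v ∧ χ u ≠ χ v) (pairNo n ⟨(u, v), huv⟩) = true := by
          rw [hval]
          constructor
          · rw [mem_cc] at hX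
            unfold dg at hX
            obtain ⟨s, hs⟩ := Finset.card_pos.1 (by omega : 0 <
              ((cl H k).filter (fun s => ({u, v} : Finset (Fin n)) ⊆ s)).card)
            rw [Finset.mem_filter, mem_cl] at hs
            exact hs.1.isClique (hs.2 (by simp)) (hs.2 (by simp)) huv.ne
          · intro h
            exact huv.ne (hX2 (by simp) (by simp) h)
        rw [h1] at hχ2
        exact absurd hχ2 (by simp)
    · obtain ⟨A', -, hclo, herr⟩ := hcl1 ∅ (Finset.empty_subset _)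
      refine ⟨⟨A', hclo⟩, ?_, ?_⟩
      · refine le_trans ?_ hR2
        have h2 : ¬ 2 ≤ dg H k {u, v} := fun h => hX (mem_cc.2 h)
        have h3 := hdg {u, v}
        have h4 : {s : {s // s ∈ cl H k} |
            bits (fun u v => u ∈ s.1 ∧ v ∈ s.1) (pairNo n ⟨(u, v), huv⟩) = true ∧
              ¬ ∃ X ∈ A', X ⊆ s.1} ⊆ {s : {s // s ∈ cl H k} | ({u, v} : Finset (Fin n)) ⊆ s.1} := by
          rintro s ⟨hs, -⟩
          rw [hval] at hs
          intro w hw
          rw [Finset.mem_insert, Finset.mem_singleton] at hw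
          rcases hw with rfl | rfl
          · exact hs.1
          · exact hs.2
        refine ncard_le h4 ?_
        have h5 : {s : {s // s ∈ cl H k} | ({u, v} : Finset (Fin n)) ⊆ s.1}.ncard ≤ 1 := by omega
        exact_mod_cast h5
      · refine ncard_le ?_ herr
        rintro χ ⟨hχ1, hχ2⟩
        refine ⟨hχ1, ?_⟩
        rintro ⟨X, hX1, -⟩
        exact absurd hX1 (Finset.notMem_empty _)
  · -- true
    obtain ⟨A', hsub, hclo, -⟩ := hcl1 {∅} (by
      intro X hX'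
      rw [Finset.mem_singleton] at hX'
      rw [hX']
      exact hempty)
    exact ⟨⟨A', hclo⟩, fun s => ⟨∅, hsub (Finset.mem_singleton_self _), Finset.empty_subset _⟩⟩
  · -- false
    obtain ⟨A', -, hclo, herr⟩ := hcl1 ∅ (Finset.empty_subset _)
    refine ⟨⟨A', hclo⟩, ncard_le ?_ herr⟩
    intro χ hχ
    refine ⟨hχ, ?_⟩
    rintro ⟨X, hX1, -⟩
    exact absurd hX1 (Finset.notMem_empty _)
  · -- AND
    rintro ⟨A₁, hA₁⟩ ⟨A₂, hA₂⟩
    obtain ⟨B₁, hB₁, hB₁c, hB₁m⟩ := hmin A₁ hA₁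
    obtain ⟨B₂, hB₂, hB₂c, hB₂m⟩ := hmin A₂ hA₂
    obtain ⟨A', hsub, hclo, herr⟩ := hcl1
      (((B₁ ×ˢ B₂).image (fun z => z.1 ∪ z.2)).filter (fun X => X ∈ cc H k)) (by
        intro X hX
        exact (Finset.mem_filter.1 hX).2)
    refine ⟨⟨A', hclo⟩, ?_, ?_⟩
    · have h1 : {s : {s // s ∈ cl H k} |
          ((∃ X ∈ A₁, X ⊆ s.1) ∧ ∃ X ∈ A₂, X ⊆ s.1) ∧ ¬ ∃ X ∈ A', X ⊆ s.1} ⊆
          ⋃ z ∈ (B₁ ×ˢ B₂).filter (fun z => z.1 ∪ z.2 ∉ cc H k),
            {s : {s // s ∈ cl H k} | z.1 ∪ z.2 ⊆ s.1} := by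
        rintro s ⟨⟨⟨X₁, hX₁, hX₁s⟩, ⟨X₂, hX₂, hX₂s⟩⟩, hno⟩
        obtain ⟨Y₁, hY₁, hY₁X⟩ := hB₁m X₁ hX₁
        obtain ⟨Y₂, hY₂, hY₂X⟩ := hB₂m X₂ hX₂
        have h2 : Y₁ ∪ Y₂ ⊆ s.1 := Finset.union_subset (hY₁X.trans hX₁s) (hY₂X.trans hX₂s)
        rw [Set.mem_iUnion₂]
        refine ⟨(Y₁, Y₂), ?_, h2⟩
        rw [Finset.mem_filter]
        refine ⟨Finset.mem_product.2 ⟨hY₁, hY₂⟩, ?_⟩
        intro h3
        apply hno
        refine ⟨Y₁ ∪ Y₂, hsub ?_, h2⟩
        rw [Finset.mem_filter]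
        exact ⟨Finset.mem_image.2 ⟨(Y₁, Y₂), Finset.mem_product.2 ⟨hY₁, hY₂⟩, rfl⟩, h3⟩
      refine ncard_le h1 ?_
      have h2 : (⋃ z ∈ (B₁ ×ˢ B₂).filter (fun z => z.1 ∪ z.2 ∉ cc H k),
            {s : {s // s ∈ cl H k} | z.1 ∪ z.2 ⊆ s.1}).ncard ≤
          ∑ z ∈ (B₁ ×ˢ B₂).filter (fun z => z.1 ∪ z.2 ∉ cc H k),
            {s : {s // s ∈ cl H k} | z.1 ∪ z.2 ⊆ s.1}.ncard :=
        Finset.set_ncard_biUnion_le _ _
      have h3 : ∑ z ∈ (B₁ ×ˢ B₂).filter (fun z => z.1 ∪ z.2 ∉ cc H k),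
            {s : {s // s ∈ cl H k} | z.1 ∪ z.2 ⊆ s.1}.ncard ≤ R ^ 2 := by
        calc _ ≤ ∑ z ∈ (B₁ ×ˢ B₂).filter (fun z => z.1 ∪ z.2 ∉ cc H k), 1 := by
              apply Finset.sum_le_sum
              intro z hz
              have h4 : ¬ 2 ≤ dg H k (z.1 ∪ z.2) := fun h =>
                (Finset.mem_filter.1 hz).2 (mem_cc.2 h)
              have h5 := hdg (z.1 ∪ z.2)
              omega
          _ = ((B₁ ×ˢ B₂).filter (fun z => z.1 ∪ z.2 ∉ cc H k)).card := by simp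
          _ ≤ (B₁ ×ˢ B₂).card := Finset.card_filter_le _ _
          _ ≤ R ^ 2 := by
              rw [Finset.card_product, sq]
              exact Nat.mul_le_mul hB₁c hB₂c
      exact_mod_cast h2.trans h3
    · refine ncard_le ?_ herr
      rintro χ ⟨hχ1, hχ2⟩
      refine ⟨hχ1, ?_⟩
      rintro ⟨X, hX1, hX2⟩
      rw [Finset.mem_filter] at hX1
      obtain ⟨z, hz, rfl⟩ := Finset.mem_image.1 hX1.1
      rw [Finset.mem_product] at hz
      apply hχ2
      refine ⟨⟨z.1, hB₁ hz.1, hX2.mono ?_⟩, ⟨z.2, hB₂ hz.2, hX2.mono ?_⟩⟩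
      · exact_mod_cast Finset.subset_union_left
      · exact_mod_cast Finset.subset_union_right
  · -- OR
    rintro ⟨A₁, hA₁⟩ ⟨A₂, hA₂⟩
    obtain ⟨A', hsub, hclo, herr⟩ := hcl1 (A₁ ∪ A₂) (Finset.union_subset hA₁.1 hA₂.1)
    refine ⟨⟨A', hclo⟩, ?_, ?_⟩
    · apply hpos_empty
      rintro s ⟨h1, h2⟩
      apply h2
      rcases h1 with ⟨X, hX, hXs⟩ | ⟨X, hX, hXs⟩
      · exact ⟨X, hsub (Finset.mem_union_left _ hX), hXs⟩
      · exact ⟨X, hsub (Finset.mem_union_right _ hX), hXs⟩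
    · refine ncard_le ?_ herr
      rintro χ ⟨hχ1, hχ2⟩
      refine ⟨hχ1, ?_⟩
      rintro ⟨X, hX1, hX2⟩
      apply hχ2
      rcases Finset.mem_union.1 hX1 with h | h
      · exact Or.inl ⟨X, h, hX2⟩
      · exact Or.inr ⟨X, h, hX2⟩

end Pool.Agent.W2helper22.CU
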