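import Mathlib
import Pool.Agent.W2helper86.KQ.Defs

/-!
# The `k`-clique problem for the subgraphs of a host graph: definitions

Circuits (AND and OR gates of fan-in two, NOT gates) are `Pool.Agent.H540R2.Circuit`; `C.size` is
the number of gates and `C.nots` the number of NOT gates. `graph x` is the graph on `n` vertices
whose edges are the pairs with true bits in `x`.
-/

set_option autoImplicit false

namespace Pool.Agent.W2helper22.CU

open Filter Pool.Agent.H540R2 Pool.Agent.W2helper86.KQ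

/-- the number of cliques of `k` vertices -/
noncomputable def cliques {n : ℕ} (H : SimpleGraph (Fin n)) (k : ℕ) : ℕ :=
  {s : Finset (Fin n) | H.IsNClique k s}.ncard

/-- For every subgraph of `H`, the circuit decides whether it has a clique of `k` vertices. -/
def Decides {n : ℕ} (H : SimpleGraph (Fin n)) (k : ℕ) (C : Circuit (n.choose 2)) : Prop :=
  ∀ x : Fin (n.choose 2) → Bool, graph x ≤ H → (C.eval x = true ↔ ¬ (graph x).CliqueFree k)

/-- For all `k` and `n` there are circuits of size `f k * n ^ o(k)` which decide, for the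
subgraphs of `H k n`, whether they have a clique of `k` vertices. -/
def Easy (H : ∀ k n : ℕ, SimpleGraph (Fin n)) : Prop :=
  ∃ (f : ℕ → ℕ) (g : ℕ → ℝ), Tendsto (fun k : ℕ => g k / k) atTop (nhds 0) ∧
    ∀ k n : ℕ, 1 ≤ k → 2 ≤ n → ∃ C : Circuit (n.choose 2),
      (C.size : ℝ) ≤ f k * (n : ℝ) ^ g k ∧ Decides (H k n) k C

/-- The number of `k`-cliques of `H k n` is at most `f k * n ^ o(k)`. -/
def Few (H : ∀ k n : ℕ, SimpleGraph (Fin n)) : Prop :=
  ∃ (f : ℕ → ℕ) (g : ℕ → ℝ), Tendsto (fun k : ℕ => g k / k) atTop (nhds 0) ∧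
    ∀ k n : ℕ, 1 ≤ k → 2 ≤ n → (cliques (H k n) k : ℝ) ≤ f k * (n : ℝ) ^ g k

/-- The number of `k`-cliques of `H k n` is `n ^ Ω(k)`: for some `c > 0`, for all large `k`, it is
at least `n ^ (c k)` for all large `n`. -/
def Many (H : ∀ k n : ℕ, SimpleGraph (Fin n)) : Prop :=
  ∃ c : ℝ, 0 < c ∧ ∀ᶠ k : ℕ in atTop, ∀ᶠ n : ℕ in atTop,
    (n : ℝ) ^ (c * k) ≤ cliques (H k n) k

end Pool.Agent.W2helper22.CU
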