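import Pool.Agent.W2helper22.CU.Model

/-!
# Monotone circuits for the `k`-clique problem on the subgraphs of a host graph: definition
-/

set_option autoImplicit false

namespace Pool.Agent.W2helper22.CU

open Pool.Agent.H540R2 Pool.Agent.W2helper86.KQ

/-- The circuit accepts the subgraphs of `H` with a clique of `k` vertices and it rejects the
subgraphs of `H` which can be coloured with `k - 1` colours (nothing is required of the other
graphs). -/
def Separates {n : ℕ} (H : SimpleGraph (Fin n)) (k : ℕ) (C : Circuit (n.choose 2)) : Prop :=
  ∀ x : Fin (n.choose 2) → Bool, graph x ≤ H →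
    (¬ (graph x).CliqueFree k → C.eval x = true) ∧
    ((graph x).Colorable (k - 1) → C.eval x = false)

end Pool.Agent.W2helper22.CU
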