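import Pool.Agent.W2helper22.CU.Stmts

/-!
# Numbers of projections: elementary facts
-/

set_option autoImplicit false

namespace Pool.Agent.W2helper22.CU

open Finset

lemma card_image_le_image {α β γ : Type*} [DecidableEq β] [DecidableEq γ] (S : Finset α)
    (f : α → β) (g : α → γ) (h : ∀ y ∈ S, ∀ z ∈ S, g y = g z → f y = f z) :
    (S.image f).card ≤ (S.image g).card := by
  classical
  rcases S.eq_empty_or_nonempty with rfl | ⟨s0, hs0⟩
  · simp
  let t : γ → β := fun c => if hc : ∃ y ∈ S, g y = c then f hc.choose else f s0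
  have : S.image f = (S.image g).image t := by
    rw [Finset.image_image]
    apply Finset.image_congr
    intro y hy
    have hc : ∃ y' ∈ S, g y' = g y := ⟨y, hy, rfl⟩
    simp only [t, Function.comp, dif_pos hc]
    exact h y hy _ hc.choose_spec.1 hc.choose_spec.2.symm
  rw [this]
  exact Finset.card_image_le

variable {K N : ℕ}

lemma restrict_eq {J : Finset (Fin K)} {y z : Fin K → Fin N} :
    (fun i : J => y i) = (fun i : J => z i) ↔ ∀ i ∈ J, y i = z i := by
  constructor
  · intro h i hi
    exact congrFun h ⟨i, hi⟩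
  · intro h
    funext i
    exact h i i.2

lemma pc_mono (S : Finset (Fin K → Fin N)) {J J' : Finset (Fin K)} (h : J ⊆ J') :
    pc S J ≤ pc S J' := by
  unfold pc
  apply card_image_le_image
  intro y _ z _ hyz
  rw [restrict_eq] at hyz ⊢
  exact fun i hi => hyz i (h hi)

lemma pc_pos {S : Finset (Fin K → Fin N)} (hS : S.Nonempty) (J : Finset (Fin K)) :
    0 < pc S J := by
  unfold pc
  exact Finset.card_pos.2 (hS.image _)

lemma pc_empty {S : Finset (Fin K → Fin N)} (hS : S.Nonempty) : pc S ∅ = 1 := by
  apply le_antisymm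
  · unfold pc
    rw [Finset.card_le_one]
    intro a _ b _
    funext i
    exact absurd i.2 (Finset.notMem_empty _)
  · exact pc_pos hS ∅

lemma pc_univ (S : Finset (Fin K → Fin N)) : pc S Finset.univ = S.card := by
  unfold pc
  apply Finset.card_image_of_injective
  intro y z hyz
  have := restrict_eq.1 hyz
  funext i
  exact this i (Finset.mem_univ _)

lemma pc_insert_le (S : Finset (Fin K → Fin N)) (J : Finset (Fin K)) (i : Fin K) :
    pc S (insert i J) ≤ N * pc S J := by
  have h1 : pc S (insert i J) ≤ (S.image (fun y => (y i, fun j : J => y j))).card := by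
    unfold pc
    apply card_image_le_image
    intro y _ z _ hyz
    rw [Prod.mk.injEq, restrict_eq] at hyz
    rw [restrict_eq]
    intro j hj
    rcases Finset.mem_insert.1 hj with rfl | hj
    · exact hyz.1
    · exact hyz.2 j hj
  refine h1.trans ?_
  have h2 : S.image (fun y => (y i, fun j : J => y j)) ⊆
      (Finset.univ : Finset (Fin N)) ×ˢ S.image (fun y (j : J) => y j) := by
    intro p hp
    obtain ⟨y, hy, rfl⟩ := Finset.mem_image.1 hp
    exact Finset.mem_product.2 ⟨Finset.mem_univ _, Finset.mem_image_of_mem _ hy⟩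
  calc _ ≤ ((Finset.univ : Finset (Fin N)) ×ˢ S.image (fun y (j : J) => y j)).card :=
        Finset.card_le_card h2
    _ = N * pc S J := by
        rw [Finset.card_product]
        simp [pc]

lemma mem_fib {S : Finset (Fin K → Fin N)} {J : Finset (Fin K)} {x y : Fin K → Fin N} :
    y ∈ fib S J x ↔ y ∈ S ∧ ∀ i ∈ J, y i = x i := by
  simp [fib]

lemma fib_sub {S : Finset (Fin K → Fin N)} {J J' : Finset (Fin K)} (h : J ⊆ J')
    (x : Fin K → Fin N) : fib S J' x ⊆ fib S J x := by
  intro y hy
  rw [mem_fib] at hy ⊢
  exact ⟨hy.1, fun i hi => hy.2 i (h hi)⟩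

/-- the number of values of the coordinate `i` on the fibre -/
lemma pc_fib_insert (S : Finset (Fin K → Fin N)) (J : Finset (Fin K)) (i : Fin K)
    (x : Fin K → Fin N) :
    pc (fib S J x) (insert i J) = ((fib S J x).image (fun y => y i)).card := by
  unfold pc
  apply le_antisymm
  · apply card_image_le_image
    intro y hy z hz hyz
    rw [mem_fib] at hy hz
    rw [restrict_eq]
    intro j hj
    rcases Finset.mem_insert.1 hj with rfl | hj
    · exact hyz
    · rw [hy.2 j hj, hz.2 j hj]
  · apply card_image_le_image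
    intro y _ z _ hyz
    rw [restrict_eq] at hyz
    exact hyz i (Finset.mem_insert_self _ _)

lemma pc_fib_insert_le (S : Finset (Fin K → Fin N)) {J J' : Finset (Fin K)} (h : J ⊆ J')
    (i : Fin K) (x : Fin K → Fin N) :
    pc (fib S J' x) (insert i J') ≤ pc (fib S J x) (insert i J) := by
  rw [pc_fib_insert, pc_fib_insert]
  exact Finset.card_le_card (Finset.image_subset_image (fib_sub h x))

/-- the projections of the fibre to `W` -/
lemma pc_fib_union_le (S : Finset (Fin K → Fin N)) (J W : Finset (Fin K)) (x : Fin K → Fin N)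
    (T : Finset (W → Fin N)) (hT : ∀ y ∈ fib S J x, (fun i : W => y i) ∈ T) :
    pc (fib S J x) (J ∪ W) ≤ T.card := by
  have h1 : pc (fib S J x) (J ∪ W) ≤ ((fib S J x).image (fun y (i : W) => y i)).card := by
    unfold pc
    apply card_image_le_image
    intro y hy z hz hyz
    rw [mem_fib] at hy hz
    rw [restrict_eq] at hyz ⊢
    intro j hj
    rcases Finset.mem_union.1 hj with hj | hj
    · rw [hy.2 j hj, hz.2 j hj]
    · exact hyz j hj
  refine h1.trans (Finset.card_le_card ?_)
  intro t ht
  obtain ⟨y, hy, rfl⟩ := Finset.mem_image.1 ht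
  exact hT y hy

end Pool.Agent.W2helper22.CU
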