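import Pool.Agent.W2helper22.CU.Model2
import Pool.Agent.H520R2.Sun

/-!
# Monotone circuits on every host: interface statements
-/

set_option autoImplicit false

namespace Pool.Agent.W2helper22.CU

open Finset Pool.Agent.H540R2 Pool.Agent.W2helper86.KQ

open Classical in
/-- **ABS.** The method of approximations for circuits without NOT gates. `𝓛` are the
approximators, `P` the positive and `Q` the negative tests. -/
def P_ABS : Prop := ∀ (N : ℕ) (C : Circuit N), C.nots = 0 →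
  ∀ (𝓛 P Q : Type) [Fintype P] [Fintype Q] (xP : P → Fin N → Bool) (xQ : Q → Fin N → Bool)
    (accP : 𝓛 → P → Prop) (accQ : 𝓛 → Q → Prop) (a b : ℝ), 0 ≤ a → 0 ≤ b →
  (∀ i : Fin N, ∃ A, ((univ.filter (fun p => xP p i = true ∧ ¬ accP A p)).card : ℝ) ≤ a ∧
    ((univ.filter (fun q => accQ A q ∧ xQ q i = false)).card : ℝ) ≤ b) →
  (∃ A, ∀ p, accP A p) →
  (∃ A, ((univ.filter (fun q => accQ A q)).card : ℝ) ≤ b) →
  (∀ A B, ∃ D, ((univ.filter (fun p => (accP A p ∧ accP B p) ∧ ¬ accP D p)).card : ℝ) ≤ a ∧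
    ((univ.filter (fun q => accQ D q ∧ ¬ (accQ A q ∧ accQ B q))).card : ℝ) ≤ b) →
  (∀ A B, ∃ D, ((univ.filter (fun p => (accP A p ∨ accP B p) ∧ ¬ accP D p)).card : ℝ) ≤ a ∧
    ((univ.filter (fun q => accQ D q ∧ ¬ (accQ A q ∨ accQ B q))).card : ℝ) ≤ b) →
  ∃ A, ((univ.filter (fun p => C.eval (xP p) = true ∧ ¬ accP A p)).card : ℝ) ≤
      (3 * C.size + 1) * a ∧
    ((univ.filter (fun q => accQ A q ∧ C.eval (xQ q) = false)).card : ℝ) ≤ (3 * C.size + 1) * b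

/-- the probability that a random colouring of `κ` vertices with `κ` colours is injective -/
noncomputable def qq (κ : ℕ) : ℝ := (κ.factorial : ℝ) / (κ : ℝ) ^ κ

open Classical in
/-- **COL.** Colourings of the vertices with `κ` colours: (1) the injective ones on a set of at most
`κ` vertices; (2) those injective on the core `Z` but on no member of a sunflower. -/
def P_COL : Prop := ∀ (n κ : ℕ), 1 ≤ κ →
  (∀ X : Finset (Fin n), X.card ≤ κ →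
    qq κ * (κ : ℝ) ^ n ≤
      (univ.filter (fun χ : Fin n → Fin κ => Set.InjOn χ (X : Set (Fin n)))).card) ∧
  (∀ (Z : Finset (Fin n)) (P : Finset (Finset (Fin n))), (∀ S ∈ P, Z ⊆ S ∧ S.card ≤ κ) →
    (∀ S ∈ P, ∀ T ∈ P, S ≠ T → S ∩ T ⊆ Z) →
    ((univ.filter (fun χ : Fin n → Fin κ => Set.InjOn χ (Z : Set (Fin n)) ∧
      ∀ S ∈ P, ¬ Set.InjOn χ (S : Set (Fin n)))).card : ℝ) ≤
      (1 - qq κ) ^ P.card * (κ : ℝ) ^ n)

/-- The family `A` (of sets of `𝒞`) is closed: it contains each set of `𝒞` which is, up to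
`D` colourings, already covered. -/
def Closed {n κ : ℕ} (𝒞 : Finset (Finset (Fin n))) (D : ℝ) (A : Finset (Finset (Fin n))) : Prop :=
  A ⊆ 𝒞 ∧ ∀ Y ∈ 𝒞, ({χ : Fin n → Fin κ | Set.InjOn χ (Y : Set (Fin n)) ∧
    ∀ X ∈ A, ¬ Set.InjOn χ (X : Set (Fin n))}.ncard : ℝ) ≤ D → Y ∈ A

open Classical in
/-- **CLOS.** (1) The closure adds at most `|𝒞| D` accepted colourings. (2) A closed family has few
minimal sets. -/
def P_CLOS : Prop := ∀ (n κ p : ℕ) (𝒞 : Finset (Finset (Fin n))) (D : ℝ), 1 ≤ κ → 2 ≤ p → 0 ≤ D →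
  (∀ A ⊆ 𝒞, ∃ A' : Finset (Finset (Fin n)), A ⊆ A' ∧ Closed (κ := κ) 𝒞 D A' ∧
    ((univ.filter (fun χ : Fin n → Fin κ => (∃ X ∈ A', Set.InjOn χ (X : Set (Fin n))) ∧
      ¬ ∃ X ∈ A, Set.InjOn χ (X : Set (Fin n)))).card : ℝ) ≤ 𝒞.card * D) ∧
  ((∀ X ∈ 𝒞, X.card ≤ κ) → (∀ X ∈ 𝒞, ∀ Y ⊆ X, Y ∈ 𝒞) → (1 - qq κ) ^ p * (κ : ℝ) ^ n ≤ D →
    ∀ A : Finset (Finset (Fin n)), Closed (κ := κ) 𝒞 D A → ∃ B ⊆ A,
      B.card ≤ p ^ κ * κ.factorial ∧ ∀ X ∈ A, ∃ Y ∈ B, Y ⊆ X)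

/-- **MAINM.** The main inequality. -/
def P_MAINM : Prop := ∀ (n k p : ℕ) (H : SimpleGraph (Fin n)) (C : Circuit (n.choose 2)),
  2 ≤ k → 2 ≤ p → 2 ≤ cliques H k → C.nots = 0 → Separates H k C →
  (1 - qq (k - 1)) ^ p * (2 ^ k * cliques H k * (3 * cliques H k + 1)) < qq (k - 1) →
  cliques H k ≤ (3 * C.size + 1) * (p ^ (k - 1) * (k - 1).factorial) ^ 2

/-- **FINM.** -/
def P_FINM : Prop := ∀ k : ℕ, 2 ≤ k → ∃ A : ℝ, ∀ (n : ℕ) (H : SimpleGraph (Fin n)),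
  2 ≤ cliques H k → ∀ C : Circuit (n.choose 2), C.nots = 0 → Separates H k C →
  (cliques H k : ℝ) ≤ A * Real.log (cliques H k) ^ (2 * k - 2) * (C.size + 1)

end Pool.Agent.W2helper22.CU
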