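import Pool.Agent.W2helper22.CU.MainM
import Pool.Agent.H520R2.NM
import Pool.Agent.W953.KC.NMc

/-!
# Circuits with few NOT gates on every host: interface statements

`bits`, `cl`, `dg` are defined in `MainM.lean`.
-/

set_option autoImplicit false

namespace Pool.Agent.W2helper22.CU

open Finset Pool.Agent.H540R2 Pool.Agent.W2helper86.KQ Pool.Agent.H520R2 Pool.Agent.H520R2.NM

/-- **ABSM.** The method of approximations for monotone programs. -/
def P_ABSM : Prop := ∀ (N s : ℕ) (g : (Fin N → Bool) → Bool), MComp (VB (Fin N)) s g →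
  ∀ (𝓛 P Q : Type) [Fintype P] [Fintype Q] (xP : P → Fin N → Bool) (xQ : Q → Fin N → Bool)
    (accP : 𝓛 → P → Prop) (accQ : 𝓛 → Q → Prop) (a b : ℝ), 0 ≤ a → 0 ≤ b →
    (∀ i : Fin N, ∃ A, ({p | xP p i = true ∧ ¬ accP A p}.ncard : ℝ) ≤ a ∧
      ({q | accQ A q ∧ xQ q i = false}.ncard : ℝ) ≤ b) →
    (∃ A, ∀ p, accP A p) →
    (∃ A, ({q | accQ A q}.ncard : ℝ) ≤ b) →
    (∀ A B, ∃ D, ({p | (accP A p ∧ accP B p) ∧ ¬ accP D p}.ncard : ℝ) ≤ a ∧
      ({q | accQ D q ∧ ¬ (accQ A q ∧ accQ B q)}.ncard : ℝ) ≤ b) →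
    (∀ A B, ∃ D, ({p | (accP A p ∨ accP B p) ∧ ¬ accP D p}.ncard : ℝ) ≤ a ∧
      ({q | accQ D q ∧ ¬ (accQ A q ∨ accQ B q)}.ncard : ℝ) ≤ b) →
    ∃ A, ({p | g (xP p) = true ∧ ¬ accP A p}.ncard : ℝ) ≤ (3 * s + 1) * a ∧
      ({q | accQ A q ∧ g (xQ q) = false}.ncard : ℝ) ≤ (3 * s + 1) * b

/-- **MAINR.** A monotone program that accepts all isolated cliques of the host and rejects most
of the random colourable subgraphs. -/
def P_MAINR : Prop := ∀ (n k p s : ℕ) (H : SimpleGraph (Fin n))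
  (g : (Fin (n.choose 2) → Bool) → Bool), 2 ≤ k → 2 ≤ p → 2 ≤ cliques H k →
  MComp (VB (Fin (n.choose 2))) s g →
  (∀ S : Finset (Fin n), H.IsNClique k S → g (bits (fun u v => u ∈ S ∧ v ∈ S)) = true) →
  ({χ : Fin n → Fin (k - 1) | g (bits (fun u v => H.Adj u v ∧ χ u ≠ χ v)) = true}.ncard : ℝ) ≤
    qq (k - 1) / 2 * ((k - 1 : ℕ) : ℝ) ^ n →
  (1 - qq (k - 1)) ^ p * (2 ^ k * cliques H k * (3 * cliques H k + 1)) < qq (k - 1) / 2 →
  cliques H k ≤ (3 * s + 1) * (p ^ (k - 1) * (k - 1).factorial) ^ 2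

/-- **SPR.** A set `Z` whose link is spread (it maximises the number of the members of `𝒮` that
contain it, times `R ^ |Z|`). -/
def P_SPR : Prop := ∀ (n k R : ℕ) (𝒮 : Finset (Finset (Fin n))), 𝒮.Nonempty →
  (∀ s ∈ 𝒮, s.card = k) → 1 ≤ R → ∃ Z : Finset (Fin n), (∃ s ∈ 𝒮, Z ⊆ s) ∧
    𝒮.card ≤ R ^ Z.card * (𝒮.filter (fun s => Z ⊆ s)).card ∧
    ∀ Y, Z ⊆ Y → (𝒮.filter (fun s => Y ⊆ s)).card * R ^ (Y.card - Z.card) ≤
      (𝒮.filter (fun s => Z ⊆ s)).card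

/-- **LINK.** Passing to the common neighbourhood of a clique `Z`. `H'` is the subgraph of `H` on
the vertices outside `Z` that are adjacent to all of `Z`; the circuit for `H'` comes from a
substitution. -/
def P_LINK : Prop := ∀ (n k : ℕ) (H : SimpleGraph (Fin n)) (Z : Finset (Fin n))
  (C : H540R2.Circuit (n.choose 2)), Z.card + 2 ≤ k → H.IsClique (Z : Set (Fin n)) →
  Separates H k C → ∃ (H' : SimpleGraph (Fin n)) (C' : H540R2.Circuit (n.choose 2)),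
    Separates H' (k - Z.card) C' ∧ C'.size ≤ C.size + 2 ∧ C'.nots ≤ C.nots ∧
    (∀ Y, Disjoint Y Z → dg H' (k - Z.card) Y = dg H k (Z ∪ Y)) ∧
    (∀ Y, ¬ Disjoint Y Z → dg H' (k - Z.card) Y = 0)

/-- **ONE.** If `Z` has `k - 1` vertices, the circuit must read an edge between `Z` and each vertex
that is adjacent to all of `Z`. -/
def P_ONE : Prop := ∀ (n k : ℕ) (H : SimpleGraph (Fin n)) (Z : Finset (Fin n))
  (C : H540R2.Circuit (n.choose 2)), 2 ≤ k → Z.card + 1 = k → H.IsClique (Z : Set (Fin n)) →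
  Separates H k C → dg H k Z ≤ 2 * C.size + 1

/-- **PART.** A partition into `P` blocks such that most blocks contain about the average number
of members of a spread family (second moment over all maps `π`). -/
def P_PART : Prop := ∀ (n k P R : ℕ) (𝒮 : Finset (Finset (Fin n))), 1 ≤ P → 1 ≤ R →
  (∀ s ∈ 𝒮, s.card = k) → 𝒮.Nonempty →
  (∀ Y : Finset (Fin n), (𝒮.filter (fun s => Y ⊆ s)).card * R ^ Y.card ≤ 𝒮.card) →
  ∃ π : Fin n → Fin P,
    ((univ.filter (fun j : Fin P => 2 * P ^ k * (𝒮.filter (fun s => ∀ v ∈ s, π v = j)).card <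
      𝒮.card)).card : ℝ) ≤ 4 * ((1 + (P : ℝ) / R) ^ k - 1) * P

/-- the graph in the blocks before `j`, coloured by `χ₀` -/
def baseR {n P κ : ℕ} (H : SimpleGraph (Fin n)) (π : Fin n → Fin P) (j : Fin P)
    (χ₀ : Fin n → Fin κ) (u v : Fin n) : Prop :=
  H.Adj u v ∧ π u = π v ∧ π u < j ∧ χ₀ u ≠ χ₀ v

/-- the same, with block `j` coloured by `χ` added -/
def mixR {n P κ : ℕ} (H : SimpleGraph (Fin n)) (π : Fin n → Fin P) (j : Fin P)
    (χ₀ χ : Fin n → Fin κ) (u v : Fin n) : Prop :=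
  H.Adj u v ∧ π u = π v ∧ ((π u < j ∧ χ₀ u ≠ χ₀ v) ∨ (π u = j ∧ χ u ≠ χ v))

/-- **CHAIN.** In most blocks the non-monotone gates do not change for most colourings. (Average
over the chains; `NM.Circuit.rank_mono`, `rank_lt`; the number of blocks in which they change for
more than `δ κ ^ n` of the `χ`, whatever `χ₀`, is at most the number of ranks divided by `δ`.) -/
def P_CHAIN : Prop := ∀ (n κ P N : ℕ) (H : SimpleGraph (Fin n))
  (C : NM.Circuit (Fin (n.choose 2)) N) (π : Fin n → Fin P) (δ : ℝ), 1 ≤ κ → 0 < δ →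
  ({j : Fin P | ∀ χ₀ : Fin n → Fin κ, δ * (κ : ℝ) ^ n < ({χ : Fin n → Fin κ |
      C.probes (bits (mixR H π j χ₀ χ)) ≠ C.probes (bits (baseR H π j χ₀))}.ncard : ℝ)}.ncard : ℝ)
    * δ ≤ ((C.fanins.map (· + 1)).prod : ℕ)

/-- **BLOCK.** The bound for one good block. -/
def P_BLOCK : Prop := ∀ (n k p P : ℕ) (H : SimpleGraph (Fin n)) (C : H540R2.Circuit (n.choose 2))
  (π : Fin n → Fin P) (j : Fin P) (χ₀ : Fin n → Fin (k - 1)), 2 ≤ k → 2 ≤ p → Separates H k C →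
  ({χ : Fin n → Fin (k - 1) |
    (W953.KC.build (fun i => (Sum.inl i : Fin (n.choose 2) ⊕ Bool)) C C.size).probes
      (bits (mixR H π j χ₀ χ)) ≠
    (W953.KC.build (fun i => (Sum.inl i : Fin (n.choose 2) ⊕ Bool)) C C.size).probes
      (bits (baseR H π j χ₀))}.ncard : ℝ) ≤ qq (k - 1) / 2 * ((k - 1 : ℕ) : ℝ) ^ n →
  ∀ W : ℕ, W = ((cl H k).filter (fun s => ∀ v ∈ s, π v = j)).card → 2 ≤ W →
  (1 - qq (k - 1)) ^ p * (2 ^ k * W * (3 * W + 1)) < qq (k - 1) / 2 →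
  W ≤ (3 * C.size + 1) * (p ^ (k - 1) * (k - 1).factorial) ^ 2

/-- **SPREADN.** The bound for a spread host. -/
def P_SPREADN : Prop := ∀ (n k p P R : ℕ) (H : SimpleGraph (Fin n))
  (C : H540R2.Circuit (n.choose 2)), 2 ≤ k → 2 ≤ p → 1 ≤ P → 1 ≤ R → Separates H k C →
  1 ≤ cliques H k → (∀ Y : Finset (Fin n), dg H k Y * R ^ Y.card ≤ cliques H k) →
  16 * ((1 + (P : ℝ) / R) ^ k - 1) ≤ 1 → 4 * (2 : ℝ) ^ C.nots ≤ qq (k - 1) * P →
  (1 - qq (k - 1)) ^ p * (2 ^ k * cliques H k * (3 * cliques H k + 1)) < qq (k - 1) / 2 →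
  cliques H k ≤ 2 * P ^ k * ((3 * C.size + 1) * (p ^ (k - 1) * (k - 1).factorial) ^ 2)

/-- **FINN.** The theorem for circuits with NOT gates on every host. -/
def P_FINN : Prop := ∀ k : ℕ, 2 ≤ k → ∃ A : ℝ, ∀ (n : ℕ) (H : SimpleGraph (Fin n)),
  2 ≤ cliques H k → ∀ C : H540R2.Circuit (n.choose 2), Separates H k C →
  (cliques H k : ℝ) ≤
    A * 2 ^ (k * C.nots) * Real.log (cliques H k) ^ (2 * k - 2) * (C.size + 1)

end Pool.Agent.W2helper22.CU
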